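import Pool.Agent.MP_c4b7b1_co.Tools

/-! The base case: three weighted matchings. -/

namespace Pool.Agent.MP_c4b7b1_co

open Finset Real

/-- vertex types for two decompositions into three matchings -/
def T9 : Finset (Fin 9 → ℕ) :=
  (Fintype.piFinset (fun _ => range 2)).filter
    (fun d => (d 0 + (d 1 + d 2) ≤ 1 ∧ d 3 + (d 4 + d 5) ≤ 1 ∧ d 6 + (d 7 + d 8) ≤ 1) ∧
      (d 0 + (d 3 + d 6) ≤ 1 ∧ d 1 + (d 4 + d 7) ≤ 1 ∧ d 2 + (d 5 + d 8) ≤ 1))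

/-- weights of the types -/
noncomputable def c9 (ν : ℝ) (d : Fin 9 → ℕ) : ℝ :=
  (ν ^ (1 - (d 0 + (d 1 + d 2))) * ν ^ (1 - (d 3 + (d 4 + d 5))) * ν ^ (1 - (d 6 + (d 7 + d 8)))) *
  (ν ^ (1 - (d 0 + (d 3 + d 6))) * ν ^ (1 - (d 1 + (d 4 + d 7))) * ν ^ (1 - (d 2 + (d 5 + d 8))))

lemma mem_T9 {d : Fin 9 → ℕ} : d ∈ T9 ↔
    (d 0 + (d 1 + d 2) ≤ 1 ∧ d 3 + (d 4 + d 5) ≤ 1 ∧ d 6 + (d 7 + d 8) ≤ 1) ∧
      (d 0 + (d 3 + d 6) ≤ 1 ∧ d 1 + (d 4 + d 7) ≤ 1 ∧ d 2 + (d 5 + d 8) ≤ 1) := by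
  simp only [T9, mem_filter, Fintype.mem_piFinset, mem_range, and_iff_right_iff_imp]
  intro h l
  fin_cases l <;> simp <;> omega

lemma sum9 {M : Type*} [AddCommMonoid M] (f : Fin 9 → M) :
    ∑ i, f i = f 0 + f 1 + f 2 + f 3 + f 4 + f 5 + f 6 + f 7 + f 8 := by
  rw [Fin.sum_univ_castSucc, Fin.sum_univ_eight]; rfl

lemma prod9 {M : Type*} [CommMonoid M] (f : Fin 9 → M) :
    ∏ i, f i = f 0 * f 1 * f 2 * f 3 * f 4 * f 5 * f 6 * f 7 * f 8 := by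
  rw [Fin.prod_univ_castSucc, Fin.prod_univ_eight]; rfl

/-- permutation matrices -/
def tb0 : Fin 6 → Fin 9 → ℕ :=
  ![![1,0,0,0,1,0,0,0,1], ![1,0,0,0,0,1,0,1,0], ![0,1,0,1,0,0,0,0,1],
    ![0,1,0,0,0,1,1,0,0], ![0,0,1,1,0,0,0,1,0], ![0,0,1,0,1,0,1,0,0]]

/-- placements of two rooks -/
def tb1 : Fin 3 → Fin 6 → Fin 9 → ℕ :=
  ![![![0,0,0,0,1,0,0,0,1], ![0,0,0,0,0,1,0,1,0], ![0,0,0,1,0,0,0,0,1],
      ![0,0,0,0,0,1,1,0,0], ![0,0,0,1,0,0,0,1,0], ![0,0,0,0,1,0,1,0,0]],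
    ![![1,0,0,0,0,0,0,0,1], ![1,0,0,0,0,0,0,1,0], ![0,1,0,0,0,0,0,0,1],
      ![0,1,0,0,0,0,1,0,0], ![0,0,1,0,0,0,0,1,0], ![0,0,1,0,0,0,1,0,0]],
    ![![1,0,0,0,1,0,0,0,0], ![1,0,0,0,0,1,0,0,0], ![0,1,0,1,0,0,0,0,0],
      ![0,1,0,0,0,1,0,0,0], ![0,0,1,1,0,0,0,0,0], ![0,0,1,0,1,0,0,0,0]]]

lemma tb_cover : ∀ a0 a1 a2 a3 a4 a5 a6 a7 a8 : Fin 2,
    ((a0 : ℕ) + (a1 + a2) ≤ 1 ∧ (a3 : ℕ) + (a4 + a5) ≤ 1 ∧ (a6 : ℕ) + (a7 + a8) ≤ 1) ∧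
      ((a0 : ℕ) + (a3 + a6) ≤ 1 ∧ (a1 : ℕ) + (a4 + a7) ≤ 1 ∧ (a2 : ℕ) + (a5 + a8) ≤ 1) →
    (((a0 : ℕ) + a1 + a2 + a3 + a4 + a5 + a6 + a7 + a8 = 3 →
      ∃ i, tb0 i = ![(a0 : ℕ), a1, a2, a3, a4, a5, a6, a7, a8]) ∧
    ((a0 : ℕ) + a1 + a2 + a3 + a4 + a5 + a6 + a7 + a8 + 1 = 3 →
      ∃ i : Fin 3 × Fin 6, tb1 i.1 i.2 = ![(a0 : ℕ), a1, a2, a3, a4, a5, a6, a7, a8])) := by
  decide +kernel

lemma tb_cover' {d : Fin 9 → ℕ} (hd : d ∈ T9) :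
    (∑ l, d l = 3 → ∃ i, tb0 i = d) ∧ (∑ l, d l + 1 = 3 → ∃ i : Fin 3 × Fin 6, tb1 i.1 i.2 = d) := by
  rw [mem_T9] at hd
  have h := tb_cover ⟨d 0, by omega⟩ ⟨d 1, by omega⟩ ⟨d 2, by omega⟩ ⟨d 3, by omega⟩
    ⟨d 4, by omega⟩ ⟨d 5, by omega⟩ ⟨d 6, by omega⟩ ⟨d 7, by omega⟩ ⟨d 8, by omega⟩ hd
  have e : ![d 0, d 1, d 2, d 3, d 4, d 5, d 6, d 7, d 8] = d := by
    funext l; fin_cases l <;> rfl
  simp only [e] at h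
  rw [sum9]
  exact h

theorem base_upper {r : ℝ} (hr : 0 < r) (hrr : r ^ 2 = 1 / 3) :
    ∃ C : ℝ, 0 < C ∧ ∀ n : ℕ, 1 ≤ n → cnt (Fin n) T9 (c9 r) ≤ C * Lv 3 (2 * r) (3 * r) n := by
  have hc : ∀ d, 0 ≤ c9 r d := fun d => by unfold c9; positivity
  refine laplace T9 (c9 r) hc 3 ?_ (fun _ => r) (fun _ => hr.le) ?_
    _ _ (1 / 48) (by positivity) (by positivity) (by norm_num) ?_ ?_
  · intro d hd
    rw [mem_T9] at hd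
    rw [sum9]; omega
  · simp [hrr]; norm_num
  · refine (fT_le_tbl _ hc (fun i : Fin 3 × Fin 6 => tb1 i.1 i.2)
      (fun d hd => (tb_cover' (mem_filter.mp hd).1).2 (mem_filter.mp hd).2)
      (fun _ => hr.le)).trans (le_of_eq ?_)
    have : ∀ i : Fin 3 × Fin 6, c9 r (tb1 i.1 i.2) * mono (tb1 i.1 i.2) (fun _ => r) = r ^ 4 := by
      rintro ⟨i, j⟩
      fin_cases i <;> fin_cases j <;> simp [c9, mono, prod9, tb1] <;> ring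
    rw [sum_congr rfl (fun i _ => this i)]
    simp only [sum_const, card_univ, Fintype.card_prod, Fintype.card_fin, nsmul_eq_mul]
    push_cast
    linear_combination (18 * r ^ 2) * hrr
  · intro y hy
    refine (fT_le_tbl _ hc tb0
      (fun d hd => (tb_cover' (mem_filter.mp hd).1).1 (mem_filter.mp hd).2) hy).trans ?_
    have key := ineq_per (hy 0) (hy 1) (hy 2) (hy 3) (hy 4) (hy 5) (hy 6) (hy 7) (hy 8) hr.le hrr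
    refine le_trans (le_of_eq ?_) (key.trans (le_of_eq ?_))
    · simp [Fin.sum_univ_six, c9, mono, prod9, tb0, per]
    · congr 2
      rw [sum9, sum9]
      push_cast
      ring

variable {V : Type} [Fintype V] [DecidableEq V]

lemma deg_split3 {A B C D : SimpleGraph V} (h : A ≤ B ⊔ C ⊔ D) (h1 : Disjoint B C)
    (h2 : Disjoint (B ⊔ C) D) (v : V) :
    deg A v = deg (A ⊓ B) v + (deg (A ⊓ C) v + deg (A ⊓ D) v) := by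
  rw [deg_split h h2, deg_split (A := A ⊓ (B ⊔ C)) inf_le_right h1, inf_assoc, inf_assoc,
    inf_eq_right.mpr (le_sup_left (a := B) (b := C)),
    inf_eq_right.mpr (le_sup_right (a := B) (b := C)), add_assoc]

theorem base :
    ∃ C : ℝ, 0 < C ∧ ∃ N : ℕ, ∀ n ≥ N,
      Lv 3 (PD 3) √((3 : ℕ) : ℝ) n ≤ C * (eset (Fin n) 3).card := by
  classical
  obtain ⟨s, hs⟩ : ∃ s, s = √((3 : ℕ) : ℝ) := ⟨_, rfl⟩
  have hs0 : 0 < s := by rw [hs]; positivity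
  have hss : s ^ 2 = 3 := by rw [hs, sq_sqrt (by positivity)]; norm_num
  obtain ⟨r, hrs⟩ : ∃ r, r = s / 3 := ⟨_, rfl⟩
  have hr : 0 < r := by rw [hrs]; positivity
  have hrr : r ^ 2 = 1 / 3 := by rw [hrs, div_pow, hss]; norm_num
  obtain ⟨C2, hC2, h2⟩ := base_upper hr hrr
  obtain ⟨C1, hC1, N1, h1⟩ := avoid_lower hr 0
  obtain ⟨C3, hC3, N3, h3⟩ := first_moment hr 2
  refine ⟨(C1 * C3 * C3) ^ 2 * C2, by positivity, max (max N1 N3) 1, fun n hn => ?_⟩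
  have hn1 : N1 ≤ n := le_of_max_le_left (le_of_max_le_left hn)
  have hn3 : N3 ≤ n := le_of_max_le_right (le_of_max_le_left hn)
  have hn0 : 1 ≤ n := le_of_max_le_right hn
  set A2 := (mset (⊥ : SimpleGraph (Fin n))).sigma (fun G => mset G) with hA2
  set A := A2.sigma (fun x => mset (x.1 ⊔ x.2)) with hA
  have hmemA2 : ∀ x ∈ A2, IsM x.1 ∧ IsM x.2 ∧ Disjoint x.1 x.2 := by
    intro x hx
    rw [hA2, mem_sigma, mem_mset, mem_mset] at hx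
    exact ⟨hx.1.1, hx.2⟩
  have hmemA : ∀ x ∈ A, (IsM x.1.1 ∧ IsM x.1.2 ∧ Disjoint x.1.1 x.1.2) ∧ IsM x.2 ∧
      Disjoint (x.1.1 ⊔ x.1.2) x.2 := by
    intro x hx
    rw [hA, mem_sigma, mem_mset] at hx
    exact ⟨hmemA2 _ hx.1, hx.2⟩
  have f0 := h1 n hn1 ⊥ (fun v => (deg_bot v).le)
  have f1 := h3 n hn3 (mset (⊥ : SimpleGraph (Fin n))) (fun G => G) (wt r)
    (fun G hG v => ((mem_mset.mp hG).1 v).trans (by norm_num)) (fun G _ => wt_nonneg hr.le G)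
  rw [← hA2] at f1
  have f1' := h3 n hn3 A2 (fun x => x.1 ⊔ x.2) (fun x => wt r x.1 * wt r x.2)
    (fun x hx v => (deg_sup_le _ _ v).trans
      (add_le_add ((hmemA2 x hx).1 v) ((hmemA2 x hx).2.1 v)))
    (fun x _ => mul_nonneg (wt_nonneg hr.le _) (wt_nonneg hr.le _))
  rw [← hA] at f1'
  have f2 := cauchy A (eset (Fin n) 3) (fun x => x.1.1 ⊔ x.1.2 ⊔ x.2)
    (fun x hx => mem_eset.mpr ⟨_, x.2, ⟨_, x.1.2, ⟨⊥, x.1.1, rfl, (hmemA x hx).1.1,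
      (bot_sup_eq _).symm⟩, (hmemA x hx).1.2.1, rfl⟩, (hmemA x hx).2.1, rfl⟩)
    (fun x => wt r x.1.1 * wt r x.1.2 * wt r x.2)
  have hc : ∀ d, 0 ≤ c9 r d := fun d => by unfold c9; positivity
  have f3 : ∑ p ∈ (A ×ˢ A).filter
      (fun p => p.1.1.1 ⊔ p.1.1.2 ⊔ p.1.2 = p.2.1.1 ⊔ p.2.1.2 ⊔ p.2.2),
      (wt r p.1.1.1 * wt r p.1.1.2 * wt r p.1.2) * (wt r p.2.1.1 * wt r p.2.1.2 * wt r p.2.2) ≤
        cnt (Fin n) T9 (c9 r) := by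
    have hdeg : ∀ p ∈ (A ×ˢ A).filter
        (fun p => p.1.1.1 ⊔ p.1.1.2 ⊔ p.1.2 = p.2.1.1 ⊔ p.2.1.2 ⊔ p.2.2), ∀ v,
        (∀ X ≤ p.1.1.1 ⊔ p.1.1.2 ⊔ p.1.2,
          deg X v = deg (X ⊓ p.2.1.1) v + (deg (X ⊓ p.2.1.2) v + deg (X ⊓ p.2.2) v)) ∧
        (∀ X ≤ p.2.1.1 ⊔ p.2.1.2 ⊔ p.2.2,
          deg X v = deg (p.1.1.1 ⊓ X) v + (deg (p.1.1.2 ⊓ X) v + deg (p.1.2 ⊓ X) v)) := by
      intro p hp v
      rw [mem_filter, mem_product] at hp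
      obtain ⟨⟨hx, hy⟩, he⟩ := hp
      refine ⟨fun X hX => deg_split3 (he ▸ hX) (hmemA _ hy).1.2.2 (hmemA _ hy).2.2 v,
        fun X hX => ?_⟩
      rw [inf_comm p.1.1.1, inf_comm p.1.1.2, inf_comm p.1.2]
      exact deg_split3 (he.symm ▸ hX) (hmemA _ hx).1.2.2 (hmemA _ hx).2.2 v
    have l1 : ∀ X Y Z : SimpleGraph (Fin n), X ≤ X ⊔ Y ⊔ Z :=
      fun X Y Z => le_sup_left.trans le_sup_left
    have l2 : ∀ X Y Z : SimpleGraph (Fin n), Y ≤ X ⊔ Y ⊔ Z :=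
      fun X Y Z => le_sup_right.trans le_sup_left
    have l3 : ∀ X Y Z : SimpleGraph (Fin n), Z ≤ X ⊔ Y ⊔ Z := fun X Y Z => le_sup_right
    apply le_cnt _ (fun p => ![p.1.1.1 ⊓ p.2.1.1, p.1.1.1 ⊓ p.2.1.2, p.1.1.1 ⊓ p.2.2,
      p.1.1.2 ⊓ p.2.1.1, p.1.1.2 ⊓ p.2.1.2, p.1.1.2 ⊓ p.2.2,
      p.1.2 ⊓ p.2.1.1, p.1.2 ⊓ p.2.1.2, p.1.2 ⊓ p.2.2]) _ _ _ hc
    · intro p hp v
      have hd := hdeg p hp v
      rw [mem_filter, mem_product] at hp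
      obtain ⟨⟨hx, hy⟩, -⟩ := hp
      rw [mem_T9]
      simp only [Matrix.cons_val_zero, Matrix.cons_val_one, Matrix.cons_val]
      rw [← hd.1 _ (l1 _ _ _), ← hd.1 _ (l2 _ _ _), ← hd.1 _ (l3 _ _ _),
        ← hd.2 _ (l1 _ _ _), ← hd.2 _ (l2 _ _ _), ← hd.2 _ (l3 _ _ _)]
      exact ⟨⟨(hmemA _ hx).1.1 v, (hmemA _ hx).1.2.1 v, (hmemA _ hx).2.1 v⟩,
        (hmemA _ hy).1.1 v, (hmemA _ hy).1.2.1 v, (hmemA _ hy).2.1 v⟩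
    · intro p hp
      unfold wt c9
      simp only [← prod_mul_distrib]
      apply le_of_eq
      apply prod_congr rfl
      intro v _
      have hd := hdeg p hp v
      simp only [Matrix.cons_val_zero, Matrix.cons_val_one, Matrix.cons_val]
      rw [← hd.1 _ (l1 _ _ _), ← hd.1 _ (l2 _ _ _), ← hd.1 _ (l3 _ _ _),
        ← hd.2 _ (l1 _ _ _), ← hd.2 _ (l2 _ _ _), ← hd.2 _ (l3 _ _ _)]
    · rintro ⟨⟨⟨a1, a2⟩, a3⟩, ⟨⟨b1, b2⟩, b3⟩⟩ hp ⟨⟨⟨a1', a2'⟩, a3'⟩, ⟨⟨b1', b2'⟩, b3'⟩⟩ hq h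
      have hp' := (mem_filter.mp hp).2
      have hq' := (mem_filter.mp hq).2
      simp only at hp' hq'
      have e0 : a1 ⊓ b1 = a1' ⊓ b1' := congrFun h 0
      have e1 : a1 ⊓ b2 = a1' ⊓ b2' := congrFun h 1
      have e2 : a1 ⊓ b3 = a1' ⊓ b3' := congrFun h 2
      have e3 : a2 ⊓ b1 = a2' ⊓ b1' := congrFun h 3
      have e4 : a2 ⊓ b2 = a2' ⊓ b2' := congrFun h 4
      have e5 : a2 ⊓ b3 = a2' ⊓ b3' := congrFun h 5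
      have e6 : a3 ⊓ b1 = a3' ⊓ b1' := congrFun h 6
      have e7 : a3 ⊓ b2 = a3' ⊓ b2' := congrFun h 7
      have e8 : a3 ⊓ b3 = a3' ⊓ b3' := congrFun h 8
      have r1 : ∀ X Y Z W : SimpleGraph (Fin n), X ≤ Y ⊔ Z ⊔ W →
          X = X ⊓ Y ⊔ X ⊓ Z ⊔ X ⊓ W := fun X Y Z W hX => by
        rw [← inf_sup_left, ← inf_sup_left, inf_eq_left.mpr hX]
      have r2 : ∀ X Y Z W : SimpleGraph (Fin n), X ≤ Y ⊔ Z ⊔ W →
          X = Y ⊓ X ⊔ Z ⊓ X ⊔ W ⊓ X := fun X Y Z W hX => by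
        rw [← inf_sup_right, ← inf_sup_right, inf_eq_right.mpr hX]
      have g1 : a1 = a1' := by
        rw [r1 a1 b1 b2 b3 (hp' ▸ l1 _ _ _), r1 a1' b1' b2' b3' (hq' ▸ l1 _ _ _), e0, e1, e2]
      have g2 : a2 = a2' := by
        rw [r1 a2 b1 b2 b3 (hp' ▸ l2 _ _ _), r1 a2' b1' b2' b3' (hq' ▸ l2 _ _ _), e3, e4, e5]
      have g3 : a3 = a3' := by
        rw [r1 a3 b1 b2 b3 (hp' ▸ l3 _ _ _), r1 a3' b1' b2' b3' (hq' ▸ l3 _ _ _), e6, e7, e8]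
      have g4 : b1 = b1' := by
        rw [r2 b1 a1 a2 a3 (hp'.symm ▸ l1 _ _ _), r2 b1' a1' a2' a3' (hq'.symm ▸ l1 _ _ _),
          e0, e3, e6]
      have g5 : b2 = b2' := by
        rw [r2 b2 a1 a2 a3 (hp'.symm ▸ l2 _ _ _), r2 b2' a1' a2' a3' (hq'.symm ▸ l2 _ _ _),
          e1, e4, e7]
      have g6 : b3 = b3' := by
        rw [r2 b3 a1 a2 a3 (hp'.symm ▸ l3 _ _ _), r2 b3' a1' a2' a3' (hq'.symm ▸ l3 _ _ _),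
          e2, e5, e8]
      rw [g1, g2, g3, g4, g5, g6]
  have f4 := h2 n hn0
  have id : (Lv 1 1 r n * Lv 1 1 r n * Lv 1 1 r n) ^ 2 =
      Lv 3 (2 * r) (3 * r) n * Lv 3 (PD 3) √((3 : ℕ) : ℝ) n := by
    rw [sq, Lv_mul, Lv_mul, Lv_mul, Lv_mul]
    congr 1
    · unfold PD
      rw [← hs, hrs]
      simp only [Nat.factorial]
      push_cast
      linear_combination (-(s ^ 2 + 3) / 9) * hss
    · rw [← hs, hrs]; ring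
  have p2 := Lv_pos 1 one_pos r hn0
  have p3 := Lv_pos 3 (P := 2 * r) (by positivity) (3 * r) hn0
  generalize Lv 1 1 r n = L1 at *
  generalize Lv 3 (2 * r) (3 * r) n = LB at *
  generalize Lv 3 (PD 3) √((3 : ℕ) : ℝ) n = Lc at *
  have g1 : L1 * L1 * L1 ≤ C1 * C3 * C3 * ∑ x ∈ A, wt r x.1.1 * wt r x.1.2 * wt r x.2 := by
    calc L1 * L1 * L1 ≤ (C1 * ∑ M ∈ mset (⊥ : SimpleGraph (Fin n)), wt r M) * L1 * L1 := by gcongr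
      _ = C1 * ((∑ M ∈ mset (⊥ : SimpleGraph (Fin n)), wt r M) * L1) * L1 := by ring
      _ ≤ C1 * (C3 * ∑ x ∈ A2, wt r x.1 * wt r x.2) * L1 := by gcongr
      _ = C1 * C3 * ((∑ x ∈ A2, wt r x.1 * wt r x.2) * L1) := by ring
      _ ≤ C1 * C3 * (C3 * ∑ x ∈ A, wt r x.1.1 * wt r x.1.2 * wt r x.2) := by gcongr
      _ = _ := by ring
  have g2 : LB * Lc ≤ LB * ((C1 * C3 * C3) ^ 2 * C2 * (eset (Fin n) 3).card) := by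
    calc LB * Lc = (L1 * L1 * L1) ^ 2 := id.symm
      _ ≤ (C1 * C3 * C3 * ∑ x ∈ A, wt r x.1.1 * wt r x.1.2 * wt r x.2) ^ 2 := by gcongr
      _ = (C1 * C3 * C3) ^ 2 * (∑ x ∈ A, wt r x.1.1 * wt r x.1.2 * wt r x.2) ^ 2 := by ring
      _ ≤ (C1 * C3 * C3) ^ 2 * ((eset (Fin n) 3).card * (C2 * LB)) := by
          apply mul_le_mul_of_nonneg_left _ (by positivity)
          exact f2.trans (mul_le_mul_of_nonneg_left (f3.trans f4) (by positivity))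
      _ = _ := by ring
  exact le_of_mul_le_mul_left g2 p3

end Pool.Agent.MP_c4b7b1_co
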