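import Pool.Agent.MP_c4b7b1_co.Pm

/-! Counting graphs with a prescribed degree function. -/

namespace Pool.Agent.MP_c4b7b1_co

open Finset SimpleGraph

variable {V : Type*} [Fintype V] [DecidableEq V]

open Classical in
/-- neighbours of a vertex -/
noncomputable def nb (G : SimpleGraph V) (v : V) : Finset V := univ.filter (G.Adj v)

omit [DecidableEq V] in
@[simp] lemma mem_nb {G : SimpleGraph V} {v w : V} : w ∈ nb G v ↔ G.Adj v w := by
  simp [nb]

/-- degree of a vertex -/
noncomputable def deg (G : SimpleGraph V) (v : V) : ℕ := (nb G v).card

open Classical in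
/-- graphs with degree function `d` -/
noncomputable def gset (d : V → ℕ) : Finset (SimpleGraph V) :=
  univ.filter (fun G => ∀ v, deg G v = d v)

lemma mem_gset {d : V → ℕ} {G : SimpleGraph V} : G ∈ gset d ↔ ∀ v, deg G v = d v := by
  simp [gset]

omit [DecidableEq V] in
lemma deg_mono {G H : SimpleGraph V} (h : G ≤ H) (v : V) : deg G v ≤ deg H v := by
  classical
  unfold deg
  apply card_le_card
  intro x hx
  simp only [mem_nb] at hx ⊢
  exact h hx

lemma deg_sup_le (G H : SimpleGraph V) (v : V) : deg (G ⊔ H) v ≤ deg G v + deg H v := by
  classical
  unfold deg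
  refine le_trans (card_le_card ?_) (card_union_le _ _)
  intro x hx
  simp only [mem_nb, mem_union, sup_adj] at hx ⊢
  exact hx

lemma deg_sup {G H : SimpleGraph V} (h : Disjoint G H) (v : V) :
    deg (G ⊔ H) v = deg G v + deg H v := by
  classical
  unfold deg
  rw [← card_union_of_disjoint]
  · congr 1
    ext x
    simp
  · rw [Finset.disjoint_left]
    intro x h1 h2
    rw [mem_nb] at h1 h2
    have : (G ⊓ H).Adj v x := ⟨h1, h2⟩
    rw [h.eq_bot] at this
    exact this

omit [DecidableEq V] in
lemma deg_eq_zero {G : SimpleGraph V} {v : V} : deg G v = 0 ↔ ∀ w, ¬ G.Adj v w := by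
  classical
  simp [deg, eq_empty_iff_forall_notMem]

omit [DecidableEq V] in
lemma deg_bot (v : V) : deg (⊥ : SimpleGraph V) v = 0 := deg_eq_zero.mpr (fun _ h => h)

omit [DecidableEq V] in
lemma deg_le_one {G : SimpleGraph V} {v : V} :
    deg G v ≤ 1 ↔ ∀ x y, G.Adj v x → G.Adj v y → x = y := by
  classical
  unfold deg
  rw [card_le_one]
  simp only [mem_nb]
  constructor
  · intro h x y hx hy; exact h x hx y hy
  · intro h x hx y hy; exact h x y hx hy

lemma deg_edge {a b : V} (hab : a ≠ b) (v : V) :
    deg (edge a b) v = (if v = a then 1 else 0) + (if v = b then 1 else 0) := by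
  classical
  unfold deg
  by_cases h1 : v = a
  · subst h1
    have : nb (edge v b) v = {b} := by
      ext x; simp only [mem_nb, true_and, edge_adj, mem_singleton]
      constructor
      · rintro ⟨h | h, h'⟩
        · exact h
        · exact absurd h.1 hab
      · rintro rfl; exact ⟨Or.inl rfl, hab⟩
    rw [this]; simp [hab]
  · by_cases h2 : v = b
    · subst h2
      have : nb (edge a v) v = {a} := by
        ext x; simp only [mem_nb, true_and, edge_adj, mem_singleton]
        constructor
        · rintro ⟨h | h, h'⟩
          · exact absurd h.1 h1
          · exact h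
        · rintro rfl; exact ⟨Or.inr rfl, h1⟩
      rw [this]; simp [h1]
    · have : nb (edge a b) v = ∅ := by
        ext x; simp [edge_adj, h1, h2]
      rw [this]; simp [h1, h2]

omit [Fintype V] [DecidableEq V] in
lemma disjoint_edge {G : SimpleGraph V} {a b : V} (h : ¬ G.Adj a b) : Disjoint G (edge a b) := by
  rw [disjoint_iff]
  ext x y
  simp only [inf_adj, edge_adj, bot_adj, iff_false]
  rintro ⟨h1, h2 | h2, -⟩
  · obtain ⟨rfl, rfl⟩ := h2; exact h h1
  · obtain ⟨rfl, rfl⟩ := h2; exact h h1.symm

open Classical in
lemma card_adj_eq {a b : V} (hab : a ≠ b) (d d' : V → ℕ)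
    (hd : ∀ v, d v = d' v + ((if v = a then 1 else 0) + (if v = b then 1 else 0))) :
    ((gset d).filter (fun G => G.Adj a b)).card =
      ((gset d').filter (fun G => ¬ G.Adj a b)).card := by
  symm
  apply card_bij (fun G _ => G ⊔ edge a b)
  · intro G hG
    rw [mem_filter, mem_gset] at hG ⊢
    refine ⟨fun v => ?_, ?_⟩
    · rw [deg_sup (disjoint_edge hG.2), hG.1, deg_edge hab, hd]
    · right; simp [edge_adj, hab]
  · intro G hG H hH h
    rw [mem_filter] at hG hH
    have h1 := (disjoint_edge hG.2).sup_sdiff_cancel_right
    have h2 := (disjoint_edge hH.2).sup_sdiff_cancel_right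
    rw [← h1, ← h2, h]
  · intro G hG
    rw [mem_filter, mem_gset] at hG
    have hle : edge a b ≤ G := by
      intro x y hxy
      rw [edge_adj] at hxy
      rcases hxy with ⟨⟨rfl, rfl⟩ | ⟨rfl, rfl⟩, -⟩
      · exact hG.2
      · exact hG.2.symm
    have hna : ¬ (G \ edge a b).Adj a b := by
      simp [edge_adj, hab]
    have hsup : G \ edge a b ⊔ edge a b = G := sdiff_sup_cancel hle
    refine ⟨G \ edge a b, ?_, hsup⟩
    rw [mem_filter, mem_gset]
    refine ⟨fun v => ?_, hna⟩
    have := deg_sup (disjoint_edge hna) v
    rw [hsup, hG.1, deg_edge hab, hd] at this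
    omega

open Classical in
lemma mul_card_eq (d : V → ℕ) (a : V) :
    d a * (gset d).card = ∑ b, ((gset d).filter (fun G => G.Adj a b)).card := by
  simp only [card_filter]
  rw [sum_comm, mul_comm, card_eq_sum_ones, sum_mul]
  apply sum_congr rfl
  intro G hG
  rw [mem_gset] at hG
  rw [← hG a, one_mul, deg, nb, card_filter]

/-- the configuration-model upper bound -/
theorem card_gset_le (m : ℕ) : ∀ d : V → ℕ, ∑ v, d v = m →
    (gset d).card * ∏ v, (d v).factorial ≤ pm m := by
  classical
  induction m using Nat.strong_induction_on with
  | _ m ih =>
    intro d hm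
    by_cases h0 : ∀ v, d v = 0
    · have : m = 0 := by rw [← hm]; simp [h0]
      subst this
      have h1 : (gset d).card ≤ 1 := by
        rw [card_le_one]
        intro G hG H hH
        rw [mem_gset] at hG hH
        ext x y
        have := deg_eq_zero.mp ((hG x).trans (h0 x)) y
        have := deg_eq_zero.mp ((hH x).trans (h0 x)) y
        tauto
      simpa [h0, pm] using h1
    · push Not at h0
      obtain ⟨a, ha⟩ := h0
      have hapos : 0 < d a := Nat.pos_of_ne_zero ha
      have hsum : d a + ∑ b ∈ univ.erase a, d b = m := by
        rw [← hm, add_sum_erase _ _ (mem_univ a)]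
      have key : ∀ b, ((gset d).filter (fun G => G.Adj a b)).card * ∏ v, (d v).factorial ≤
          d a * ((if b = a then 0 else d b) * pm (m - 2)) := by
        intro b
        by_cases hb : b = a
        · subst hb
          have : (gset d).filter (fun G => G.Adj b b) = ∅ := by
            ext G; simp
          rw [this]; simp
        · by_cases hb0 : d b = 0
          · have : (gset d).filter (fun G => G.Adj a b) = ∅ := by
              ext G
              simp only [mem_filter, mem_gset, notMem_empty, iff_false, not_and]
              intro hG hadj
              exact deg_eq_zero.mp ((hG b).trans hb0) a hadj.symm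
            rw [this]; simp
          · set d' : V → ℕ := fun v => d v - ((if v = a then 1 else 0) + (if v = b then 1 else 0))
              with hd'
            have hd : ∀ v, d v = d' v + ((if v = a then 1 else 0) + (if v = b then 1 else 0)) := by
              intro v
              simp only [hd']
              by_cases h1 : v = a
              · subst h1; simp [Ne.symm hb]; omega
              · by_cases h2 : v = b
                · subst h2; simp [h1]; omega
                · simp [h1, h2]
            have hs : ∑ v, d' v + 2 = m := by
              rw [← hm, sum_congr rfl (fun v _ => hd v), sum_add_distrib, sum_add_distrib]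
              simp
            have hp : ∏ v, (d v).factorial = d a * d b * ∏ v, (d' v).factorial := by
              have : ∀ v, (d v).factorial =
                  ((if v = a then d v else 1) * (if v = b then d v else 1)) * (d' v).factorial := by
                intro v
                have hv := hd v
                by_cases h1 : v = a
                · subst h1
                  simp only [if_true, Ne.symm hb, if_false, add_zero, mul_one] at hv ⊢
                  rw [hv, Nat.factorial_succ]
                · by_cases h2 : v = b
                  · subst h2
                    simp only [if_true, h1, if_false, zero_add, one_mul] at hv ⊢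
                    rw [hv, Nat.factorial_succ]
                  · simp only [h1, h2, if_false, add_zero, one_mul] at hv ⊢
                    rw [hv]
              rw [prod_congr rfl (fun v _ => this v), prod_mul_distrib, prod_mul_distrib]
              simp
            have hih := ih (m - 2) (by omega) d' (by omega)
            rw [card_adj_eq (Ne.symm hb) d d' hd, hp, if_neg hb]
            have hc : ((gset d').filter (fun G => ¬ G.Adj a b)).card ≤ (gset d').card :=
              card_filter_le _ _
            calc _ ≤ (gset d').card * (d a * d b * ∏ v, (d' v).factorial) := by gcongr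
              _ = d a * (d b * ((gset d').card * ∏ v, (d' v).factorial)) := by ring
              _ ≤ _ := by gcongr
      have h2 : d a * ((gset d).card * ∏ v, (d v).factorial) ≤ d a * pm m := by
        rw [← mul_assoc, mul_card_eq, sum_mul]
        refine (sum_le_sum (fun b _ => key b)).trans ?_
        rw [← mul_sum, ← sum_mul]
        apply Nat.mul_le_mul_left
        rw [← pm_pred m (by omega)]
        apply Nat.mul_le_mul_right
        have : ∑ b, (if b = a then 0 else d b) = ∑ b ∈ univ.erase a, d b := by
          rw [← add_sum_erase _ _ (mem_univ a), if_pos rfl, zero_add]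
          apply sum_congr rfl
          intro b hb
          rw [if_neg (ne_of_mem_erase hb)]
        omega
      exact Nat.le_of_mul_le_mul_left h2 hapos

/-- lower bound for the number of perfect matchings of a vertex subset -/
theorem pm_le_card (m : ℕ) : ∀ S : Finset V, S.card = m →
    pm m ≤ (gset (fun v => if v ∈ S then 1 else 0)).card := by
  classical
  induction m using Nat.strong_induction_on with
  | _ m ih =>
    intro S hm
    rcases S.eq_empty_or_nonempty with rfl | ⟨a, ha⟩
    · simp only [card_empty] at hm
      subst hm
      apply card_pos.mpr
      exact ⟨⊥, mem_gset.mpr (fun v => by simp [deg_bot])⟩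
    · have hm1 : 1 ≤ m := by rw [← hm]; exact card_pos.mpr ⟨a, ha⟩
      have h1 := mul_card_eq (fun v => if v ∈ S then 1 else 0) a
      simp only [ha, if_true, one_mul] at h1
      rw [h1, ← pm_pred m hm1]
      have key : ∀ b ∈ S.erase a, pm (m - 2) ≤
          ((gset (fun v => if v ∈ S then 1 else 0)).filter (fun G => G.Adj a b)).card := by
        intro b hb
        have hba : b ≠ a := ne_of_mem_erase hb
        have hbS : b ∈ S := mem_of_mem_erase hb
        have hc : ((S.erase a).erase b).card = m - 2 := by
          rw [card_erase_of_mem hb, card_erase_of_mem ha]; omega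
        have hm2 : 2 ≤ m := by
          have := card_pos.mpr ⟨b, hb⟩
          rw [card_erase_of_mem ha] at this; omega
        rw [card_adj_eq hba.symm _ (fun v => if v ∈ (S.erase a).erase b then 1 else 0)]
        · refine (ih (m - 2) (by omega) _ hc).trans (le_of_eq ?_)
          congr 1
          symm
          apply filter_true_of_mem
          intro G hG
          rw [mem_gset] at hG
          apply deg_eq_zero.mp
          rw [hG a]; simp
        · intro v
          by_cases h1 : v = a
          · subst h1; simp [ha, hba.symm]
          · by_cases h2 : v = b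
            · subst h2; simp [hbS, h1]
            · simp [h1, h2]
      calc (m - 1) * pm (m - 2) = ∑ b ∈ S.erase a, pm (m - 2) := by
            rw [sum_const, card_erase_of_mem ha, hm, smul_eq_mul]
        _ ≤ ∑ b ∈ S.erase a,
            ((gset (fun v => if v ∈ S then 1 else 0)).filter (fun G => G.Adj a b)).card :=
            sum_le_sum key
        _ ≤ _ := sum_le_sum_of_subset (subset_univ _)

end Pool.Agent.MP_c4b7b1_co
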