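import Mathlib

/-! The three analytic inequalities with quadratic stability. -/

namespace Pool.Agent.MP_c4b7b1_co

open Real

lemma le_exp_sub_one (r : ℝ) : r ≤ exp (r - 1) := by
  have := add_one_le_exp (r - 1); linarith

lemma pow_le_exp_mul {r : ℝ} (hr : 0 ≤ r) (m : ℕ) : r ^ m ≤ exp (m * (r - 1)) := by
  rw [exp_nat_mul]; exact pow_le_pow_left₀ hr (le_exp_sub_one r) m

lemma ineq_one (m : ℕ) (hm : 1 ≤ m) (y : ℝ) (hy : 0 ≤ y) :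
    y ^ m ≤ √(m : ℝ) ^ m * exp (y ^ 2 / 2 - m / 2 - 1 / 8 * (y - √(m : ℝ)) ^ 2) := by
  have hm' : (0 : ℝ) < m := by exact_mod_cast hm
  set s := √(m : ℝ) with hs
  have hs0 : 0 < s := sqrt_pos.mpr hm'
  have hss : s ^ 2 = m := sq_sqrt hm'.le
  have h3 : y ^ m = s ^ m * (y / s) ^ m := by
    rw [← mul_pow]; congr 1; field_simp
  rw [h3]
  apply mul_le_mul_of_nonneg_left _ (by positivity)
  refine (pow_le_exp_mul (by positivity) m).trans (exp_le_exp.mpr ?_)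
  have : (m : ℝ) * (y / s) = s * y := by rw [← hss]; field_simp
  nlinarith [sq_nonneg (y - s)]

lemma lip9 {a b c e τ k ε : ℝ} (ha : 0 ≤ a) (hb : 0 ≤ b) (he : 0 ≤ e) (hτ : 0 ≤ τ)
    (hk : 1 ≤ k) (h : (k + 1) * τ ^ 2 = a * e + k * (b * c)) (hε : 0 ≤ ε)
    (h1 : |a - 1| ≤ ε) (h2 : |e - 1| ≤ ε) (h3 : |b - c| ≤ ε) (h4 : |τ - 1| ≤ ε) :
    |b - 1| ≤ 9 * ε := by
  rw [abs_le] at h1 h2 h3 h4 ⊢
  obtain ⟨h1, h1'⟩ := h1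
  obtain ⟨h2, h2'⟩ := h2
  obtain ⟨h3, h3'⟩ := h3
  obtain ⟨h4, h4'⟩ := h4
  rcases le_total ε 1 with hle | hle
  · have t1 : τ ^ 2 - 1 ≤ 3 * ε := by nlinarith
    have t2 : -(3 * ε) ≤ τ ^ 2 - 1 := by nlinarith
    have t3 : a * e - 1 ≤ 3 * ε := by
      have : a * e ≤ (1 + ε) * (1 + ε) := mul_le_mul (by linarith) (by linarith) he (by linarith)
      nlinarith
    have t4 : -(3 * ε) ≤ a * e - 1 := by
      have : (1 - ε) * (1 - ε) ≤ a * e := mul_le_mul (by linarith) (by linarith) (by linarith) ha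
      nlinarith
    have t5 : b * c - 1 ≤ 9 * ε := by
      have : k * (b * c - 1) ≤ k * (9 * ε) := by nlinarith
      exact le_of_mul_le_mul_left this (by linarith)
    have t6 : -(9 * ε) ≤ b * c - 1 := by
      have : k * (-(9 * ε)) ≤ k * (b * c - 1) := by nlinarith
      exact le_of_mul_le_mul_left this (by linarith)
    constructor
    · have : -(9 * ε) * (b + 1) ≤ (b - 1) * (b + 1) := by nlinarith
      exact le_of_mul_le_mul_right this (by linarith)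
    · have : (b - 1) * (b + 1) ≤ (9 * ε) * (b + 1) := by nlinarith
      exact le_of_mul_le_mul_right this (by linarith)
  · constructor
    · linarith
    · by_contra hcon
      push Not at hcon
      have t1 : τ ^ 2 ≤ 4 * ε ^ 2 := by nlinarith
      have t2 : b * c ≤ 8 * ε ^ 2 := by
        have : k * (b * c) ≤ k * (8 * ε ^ 2) := by nlinarith [mul_nonneg ha he]
        exact le_of_mul_le_mul_left this (by linarith)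
      have t3 : (9 * ε) * (8 * ε) ≤ b * c := mul_le_mul (by linarith) (by linarith) (by linarith) hb
      nlinarith

lemma pen_bound {a b c e τ k Pen : ℝ} (ha : 0 ≤ a) (hb : 0 ≤ b) (hc : 0 ≤ c) (he : 0 ≤ e)
    (hτ0 : 0 ≤ τ) (hk2 : 2 ≤ k) (hττ' : (k + 1) * τ ^ 2 = a * e + k * (b * c))
    (hPen : Pen = (k + 1) * (k - 1) * (a - 1) ^ 2 / 2 + (a - e) ^ 2 / 2 + k * (b - c) ^ 2 / 2 +
      (k + 1) * (τ - 1) ^ 2) :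
    k ^ 2 * (a - 1) ^ 2 + k * (b - 1) ^ 2 + k * (c - 1) ^ 2 + (e - 1) ^ 2 ≤
      2000 * k ^ 2 * Pen := by
  have p1 : 0 ≤ (a - 1) ^ 2 := sq_nonneg _
  have p2 : 0 ≤ (a - e) ^ 2 := sq_nonneg _
  have p3 : 0 ≤ (b - c) ^ 2 := sq_nonneg _
  have p4 : 0 ≤ (τ - 1) ^ 2 := sq_nonneg _
  have q1 : (a - 1) ^ 2 ≤ (k + 1) * (k - 1) * (a - 1) ^ 2 :=
    le_mul_of_one_le_left p1 (by nlinarith only [hk2])
  have q3 : (b - c) ^ 2 ≤ k * (b - c) ^ 2 := le_mul_of_one_le_left p3 (by linarith)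
  have q4 : (τ - 1) ^ 2 ≤ (k + 1) * (τ - 1) ^ 2 := le_mul_of_one_le_left p4 (by linarith)
  have hP0 : 0 ≤ Pen := by linarith
  have r1 : (a - 1) ^ 2 ≤ 2 * Pen := by linarith
  have r2 : (e - 1) ^ 2 ≤ 8 * Pen := by
    have : (e - 1) ^ 2 ≤ 2 * (a - e) ^ 2 + 2 * (a - 1) ^ 2 := by
      nlinarith only [sq_nonneg (2 * a - e - 1)]
    linarith
  have r3 : (b - c) ^ 2 ≤ 8 * Pen := by linarith
  have r4 : (τ - 1) ^ 2 ≤ 8 * Pen := by linarith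
  clear hPen q1 q3 q4
  have hε0 : 0 ≤ √(8 * Pen) := sqrt_nonneg _
  have hεε : √(8 * Pen) ^ 2 = 8 * Pen := sq_sqrt (by linarith)
  have s1 : |a - 1| ≤ √(8 * Pen) := abs_le_sqrt (by linarith)
  have s2 : |e - 1| ≤ √(8 * Pen) := abs_le_sqrt r2
  have s3 : |b - c| ≤ √(8 * Pen) := abs_le_sqrt r3
  have s4 : |τ - 1| ≤ √(8 * Pen) := abs_le_sqrt r4
  generalize √(8 * Pen) = ε at *
  have u1 := lip9 ha hb he hτ0 (by linarith) hττ' hε0 s1 s2 s3 s4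
  have u2 := lip9 (b := c) (c := b) (k := k) ha hc he hτ0 (by linarith) (by rw [hττ']; ring) hε0 s1 s2
    (by rwa [abs_sub_comm]) s4
  have v1 : (b - 1) ^ 2 ≤ 648 * Pen := by
    have := sq_le_sq' (abs_le.mp u1).1 (abs_le.mp u1).2
    rw [mul_pow, hεε] at this
    linarith
  have v2 : (c - 1) ^ 2 ≤ 648 * Pen := by
    have := sq_le_sq' (abs_le.mp u2).1 (abs_le.mp u2).2
    rw [mul_pow, hεε] at this
    linarith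
  have hk0 : 0 ≤ k := by linarith
  have w1 : k ^ 2 * (a - 1) ^ 2 ≤ k ^ 2 * (2 * Pen) := by gcongr
  have w2 : k * (b - 1) ^ 2 ≤ k * (648 * Pen) := by gcongr
  have w3 : k * (c - 1) ^ 2 ≤ k * (648 * Pen) := by gcongr
  have w4 : k * Pen ≤ k ^ 2 * Pen := by gcongr; nlinarith only [hk2]
  have w5 : Pen ≤ k ^ 2 * Pen := le_mul_of_one_le_left hP0 (by nlinarith only [hk2])
  linarith

lemma ineq_step_norm (j : ℕ) (hj : 1 ≤ j) {a b c e : ℝ} (ha : 0 ≤ a) (hb : 0 ≤ b) (hc : 0 ≤ c)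
    (he : 0 ≤ e) (k : ℝ) (hk : k = j + 1) :
    a ^ j * ((a * e + k * (b * c)) / (k + 1)) ≤
      exp ((k ^ 2 * (a ^ 2 - 1) + k * (b ^ 2 - 1) + k * (c ^ 2 - 1) + (e ^ 2 - 1)) / (2 * (k + 1)) -
        1 / (2000 * k ^ 2) *
          ((k ^ 2 * (a - 1) ^ 2 + k * (b - 1) ^ 2 + k * (c - 1) ^ 2 + (e - 1) ^ 2) / (k + 1))) := by
  have hj' : (1 : ℝ) ≤ j := by exact_mod_cast hj
  have hk2 : 2 ≤ k := by linarith
  have ht0 : 0 ≤ (a * e + k * (b * c)) / (k + 1) := by positivity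
  obtain ⟨τ, hτ0, hττ⟩ : ∃ τ : ℝ, 0 ≤ τ ∧ τ ^ 2 = (a * e + k * (b * c)) / (k + 1) :=
    ⟨_, sqrt_nonneg _, sq_sqrt ht0⟩
  have hττ' : (k + 1) * τ ^ 2 = a * e + k * (b * c) := by rw [hττ]; field_simp
  rw [← hττ]
  have h1 := pow_le_exp_mul ha j
  have h2 := pow_le_exp_mul hτ0 2
  refine (mul_le_mul h1 h2 (by positivity) (by positivity)).trans ?_
  rw [← exp_add]
  apply exp_le_exp.mpr
  obtain ⟨Pen, hPen⟩ : ∃ Pen : ℝ, Pen = (k + 1) * (k - 1) * (a - 1) ^ 2 / 2 + (a - e) ^ 2 / 2 +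
    k * (b - c) ^ 2 / 2 + (k + 1) * (τ - 1) ^ 2 := ⟨_, rfl⟩
  have w := pen_bound ha hb hc he hτ0 hk2 hττ' hPen
  have w' : 1 / (2000 * k ^ 2) *
      ((k ^ 2 * (a - 1) ^ 2 + k * (b - 1) ^ 2 + k * (c - 1) ^ 2 + (e - 1) ^ 2) / (k + 1)) ≤
      Pen / (k + 1) := by
    rw [← mul_div_assoc]
    apply div_le_div_of_nonneg_right _ (by linarith)
    rw [one_div, inv_mul_le_iff₀ (by positivity)]
    exact w
  have id : (k ^ 2 * (a ^ 2 - 1) + k * (b ^ 2 - 1) + k * (c ^ 2 - 1) + (e ^ 2 - 1)) / (2 * (k + 1))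
      - Pen / (k + 1) = j * (a - 1) + (2 : ℕ) * (τ - 1) := by
    have hj2 : (j : ℝ) = k - 1 := by linarith
    rw [hj2, hPen]
    push_cast
    field_simp
    linear_combination (-2) * hττ'
  linarith only [w', id]

lemma amgm3 {x y z : ℝ} (hx : 0 ≤ x) (hy : 0 ≤ y) (hz : 0 ≤ z) :
    27 * (x * y * z) ≤ (x + y + z) ^ 3 := by
  have h1 : 0 ≤ (x + y + z) * ((x - y) ^ 2 + (x - z) ^ 2 + (y - z) ^ 2) := by positivity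
  have h2 : 0 ≤ x * (y - z) ^ 2 + y * (x - z) ^ 2 + z * (x - y) ^ 2 := by positivity
  nlinarith

lemma key_form {b1 b2 b3 : ℝ} (h1 : 0 ≤ b1) (h2 : 0 ≤ b2) (h3 : 0 ≤ b3) (c1 c2 c3 : ℝ) :
    3 * (b1 * c1 + b2 * c2 + b3 * c3) ^ 2 ≤
      (6 * b1 ^ 2 + (b1 * b2 + b1 * b3 + b2 * b3)) * c1 ^ 2 +
      (6 * b2 ^ 2 + (b1 * b2 + b1 * b3 + b2 * b3)) * c2 ^ 2 +
      (6 * b3 ^ 2 + (b1 * b2 + b1 * b3 + b2 * b3)) * c3 ^ 2 := by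
  have p12 := mul_nonneg h1 h2
  have p13 := mul_nonneg h1 h3
  have p23 := mul_nonneg h2 h3
  obtain ⟨e, he⟩ : ∃ e, e = b1 * b2 + b1 * b3 + b2 * b3 := ⟨_, rfl⟩
  rw [← he]
  have he0 : 0 ≤ e := by linarith
  rcases he0.eq_or_lt with h0 | hpos
  · have z12 : b1 * b2 = 0 := by linarith
    have z13 : b1 * b3 = 0 := by linarith
    have z23 : b2 * b3 = 0 := by linarith
    have : (b1 * c1 + b2 * c2 + b3 * c3) ^ 2 = (b1 * c1) ^ 2 + (b2 * c2) ^ 2 + (b3 * c3) ^ 2 +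
        2 * (b1 * b2) * c1 * c2 + 2 * (b1 * b3) * c1 * c3 + 2 * (b2 * b3) * c2 * c3 := by ring
    rw [this, z12, z13, z23, ← h0]
    nlinarith only [sq_nonneg (b1 * c1), sq_nonneg (b2 * c2), sq_nonneg (b3 * c3)]
  · obtain ⟨A1, hA1⟩ : ∃ A, A = 6 * b1 ^ 2 + e := ⟨_, rfl⟩
    obtain ⟨A2, hA2⟩ : ∃ A, A = 6 * b2 ^ 2 + e := ⟨_, rfl⟩
    obtain ⟨A3, hA3⟩ : ∃ A, A = 6 * b3 ^ 2 + e := ⟨_, rfl⟩
    rw [← hA1, ← hA2, ← hA3]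
    have a1 : 0 < A1 := by rw [hA1]; positivity
    have a2 : 0 < A2 := by rw [hA2]; positivity
    have a3 : 0 < A3 := by rw [hA3]; positivity
    have cs : (b1 * c1 + b2 * c2 + b3 * c3) ^ 2 * (A1 * A2 * A3) ≤
        (b1 ^ 2 * A2 * A3 + b2 ^ 2 * A1 * A3 + b3 ^ 2 * A1 * A2) *
          (A1 * c1 ^ 2 + A2 * c2 ^ 2 + A3 * c3 ^ 2) := by
      have : 0 ≤ A3 * (b1 * A2 * c2 - b2 * A1 * c1) ^ 2 + A2 * (b1 * A3 * c3 - b3 * A1 * c1) ^ 2 +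
          A1 * (b2 * A3 * c3 - b3 * A2 * c2) ^ 2 := by positivity
      linarith only [this, show (b1 ^ 2 * A2 * A3 + b2 ^ 2 * A1 * A3 + b3 ^ 2 * A1 * A2) *
          (A1 * c1 ^ 2 + A2 * c2 ^ 2 + A3 * c3 ^ 2) -
          (b1 * c1 + b2 * c2 + b3 * c3) ^ 2 * (A1 * A2 * A3) =
          A3 * (b1 * A2 * c2 - b2 * A1 * c1) ^ 2 + A2 * (b1 * A3 * c3 - b3 * A1 * c1) ^ 2 +
          A1 * (b2 * A3 * c3 - b3 * A2 * c2) ^ 2 by ring]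
    have poly : 3 * (b1 ^ 2 * A2 * A3 + b2 ^ 2 * A1 * A3 + b3 ^ 2 * A1 * A2) ≤ A1 * A2 * A3 := by
      have am := amgm3 p12 p13 p23
      rw [← he] at am
      have hq : e ≤ b1 ^ 2 + b2 ^ 2 + b3 ^ 2 := by
        rw [he]; nlinarith only [sq_nonneg (b1 - b2), sq_nonneg (b1 - b3), sq_nonneg (b2 - b3)]
      have hq' : e ^ 2 * e ≤ e ^ 2 * (b1 ^ 2 + b2 ^ 2 + b3 ^ 2) := by gcongr
      have id : A1 * A2 * A3 - 3 * (b1 ^ 2 * A2 * A3 + b2 ^ 2 * A1 * A3 + b3 ^ 2 * A1 * A2) =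
          3 * (e ^ 2 * (b1 ^ 2 + b2 ^ 2 + b3 ^ 2)) + e ^ 3 -
            108 * (b1 * b2 * (b1 * b3) * (b2 * b3)) := by
        rw [hA1, hA2, hA3]; ring
      linarith only [am, hq', id]
    have hS : 0 ≤ A1 * c1 ^ 2 + A2 * c2 ^ 2 + A3 * c3 ^ 2 := by positivity
    have : 3 * (b1 * c1 + b2 * c2 + b3 * c3) ^ 2 * (A1 * A2 * A3) ≤
        (A1 * c1 ^ 2 + A2 * c2 ^ 2 + A3 * c3 ^ 2) * (A1 * A2 * A3) := by
      have := mul_le_mul_of_nonneg_right poly hS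
      linarith only [this, cs]
    exact le_of_mul_le_mul_right this (by positivity)

/-- the 3 by 3 permanent -/
def per (a1 a2 a3 b1 b2 b3 c1 c2 c3 : ℝ) : ℝ :=
  a1 * b2 * c3 + a1 * b3 * c2 + a2 * b1 * c3 + a2 * b3 * c1 + a3 * b1 * c2 + a3 * b2 * c1

lemma per_sq_le (a1 a2 a3 : ℝ) {b1 b2 b3 : ℝ} (h1 : 0 ≤ b1) (h2 : 0 ≤ b2) (h3 : 0 ≤ b3)
    (c1 c2 c3 : ℝ) :
    per a1 a2 a3 b1 b2 b3 c1 c2 c3 ^ 2 ≤ (a1 ^ 2 + a2 ^ 2 + a3 ^ 2) * ((c1 ^ 2 + c2 ^ 2 + c3 ^ 2) *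
      (b1 ^ 2 + b2 ^ 2 + b3 ^ 2 + (b1 * b2 + b1 * b3 + b2 * b3) / 3)) := by
  have k := key_form h1 h2 h3 c1 c2 c3
  obtain ⟨X1, hX1⟩ : ∃ X, X = b2 * c3 + b3 * c2 := ⟨_, rfl⟩
  obtain ⟨X2, hX2⟩ : ∃ X, X = b1 * c3 + b3 * c1 := ⟨_, rfl⟩
  obtain ⟨X3, hX3⟩ : ∃ X, X = b1 * c2 + b2 * c1 := ⟨_, rfl⟩
  have e1 : per a1 a2 a3 b1 b2 b3 c1 c2 c3 = a1 * X1 + a2 * X2 + a3 * X3 := by
    rw [hX1, hX2, hX3, per]; ring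
  have e2 : X1 ^ 2 + X2 ^ 2 + X3 ^ 2 ≤ (c1 ^ 2 + c2 ^ 2 + c3 ^ 2) *
      (b1 ^ 2 + b2 ^ 2 + b3 ^ 2 + (b1 * b2 + b1 * b3 + b2 * b3) / 3) := by
    rw [hX1, hX2, hX3]; linarith
  rw [e1]
  refine le_trans ?_ (mul_le_mul_of_nonneg_left e2 (by positivity))
  nlinarith only [sq_nonneg (a1 * X2 - a2 * X1), sq_nonneg (a1 * X3 - a3 * X1),
    sq_nonneg (a2 * X3 - a3 * X2)]

lemma row_le {b1 b2 b3 r : ℝ} (h1 : 0 ≤ b1) (h2 : 0 ≤ b2) (h3 : 0 ≤ b3) (hr : 0 ≤ r)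
    (hrr : r ^ 2 = 1 / 3) :
    (b1 ^ 2 + b2 ^ 2 + b3 ^ 2) ^ 2 *
      (b1 ^ 2 + b2 ^ 2 + b3 ^ 2 + (b1 * b2 + b1 * b3 + b2 * b3) / 3) ≤
      4 / 3 * exp (6 * ((b1 ^ 2 + b2 ^ 2 + b3 ^ 2) / 2 - 1 / 2 -
        1 / 48 * ((b1 - r) ^ 2 + (b2 - r) ^ 2 + (b3 - r) ^ 2))) := by
  obtain ⟨q, hq⟩ : ∃ q, q = b1 ^ 2 + b2 ^ 2 + b3 ^ 2 := ⟨_, rfl⟩
  obtain ⟨e, he⟩ : ∃ e, e = b1 * b2 + b1 * b3 + b2 * b3 := ⟨_, rfl⟩
  rw [← hq, ← he]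
  have hq0 : 0 ≤ q := by rw [hq]; positivity
  have he0 : 0 ≤ e := by rw [he]; positivity
  have hqe : e ≤ q := by
    rw [he, hq]; nlinarith only [sq_nonneg (b1 - b2), sq_nonneg (b1 - b3), sq_nonneg (b2 - b3)]
  obtain ⟨ρ, hρ0, hρρ⟩ : ∃ ρ : ℝ, 0 ≤ ρ ∧ ρ ^ 2 = q := ⟨_, sqrt_nonneg _, sq_sqrt hq0⟩
  obtain ⟨m, hm⟩ : ∃ m, m = r * (b1 + b2 + b3) := ⟨_, rfl⟩
  have hm0 : 0 ≤ m := by rw [hm]; positivity
  have hmm : m ^ 2 = q - 2 * (q - e) / 3 := by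
    rw [hm, mul_pow, hrr, hq, he]; ring
  have hmρ : m ≤ ρ := le_of_pow_le_pow_left₀ (n := 2) (by norm_num) hρ0 (by linarith)
  have e1 : (b1 - r) ^ 2 + (b2 - r) ^ 2 + (b3 - r) ^ 2 = q - 2 * m + 1 := by
    rw [hq, hm]; linarith
  have e2 : q + e / 3 = 4 / 3 * (q - (q - e) / 4) := by ring
  have t1 : q ^ 2 ≤ exp ((4 : ℕ) * (ρ - 1)) := by
    rw [← hρρ, ← pow_mul]; exact pow_le_exp_mul hρ0 4
  have t2 := le_exp_sub_one (q - (q - e) / 4)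
  rw [e1, e2, mul_left_comm]
  apply mul_le_mul_of_nonneg_left _ (by norm_num)
  refine (mul_le_mul t1 t2 (by linarith) (by positivity)).trans ?_
  rw [← exp_add]
  apply exp_le_exp.mpr
  push_cast
  have t3 : (ρ - m) ^ 2 ≤ 2 * (q - e) / 3 := by
    have := mul_le_mul_of_nonneg_left hmρ hm0
    linarith only [this, hmm, hρρ]
  have t4 : (m - 1) ^ 2 ≤ 2 * (ρ - 1) ^ 2 + 2 * (ρ - m) ^ 2 := by
    linarith only [sq_nonneg (2 * ρ - m - 1)]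
  linarith only [sq_nonneg (ρ - 1), t3, t4, hmm, hρρ, hqe]

lemma ineq_per {a1 a2 a3 b1 b2 b3 c1 c2 c3 r : ℝ} (ha1 : 0 ≤ a1) (ha2 : 0 ≤ a2) (ha3 : 0 ≤ a3)
    (hb1 : 0 ≤ b1) (hb2 : 0 ≤ b2) (hb3 : 0 ≤ b3) (hc1 : 0 ≤ c1) (hc2 : 0 ≤ c2) (hc3 : 0 ≤ c3)
    (hr : 0 ≤ r) (hrr : r ^ 2 = 1 / 3) :
    per a1 a2 a3 b1 b2 b3 c1 c2 c3 ≤ 2 * r *
      exp (((a1 ^ 2 + a2 ^ 2 + a3 ^ 2) / 2 - 1 / 2 -
        1 / 48 * ((a1 - r) ^ 2 + (a2 - r) ^ 2 + (a3 - r) ^ 2)) +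
        ((b1 ^ 2 + b2 ^ 2 + b3 ^ 2) / 2 - 1 / 2 -
        1 / 48 * ((b1 - r) ^ 2 + (b2 - r) ^ 2 + (b3 - r) ^ 2)) +
        ((c1 ^ 2 + c2 ^ 2 + c3 ^ 2) / 2 - 1 / 2 -
        1 / 48 * ((c1 - r) ^ 2 + (c2 - r) ^ 2 + (c3 - r) ^ 2))) := by
  have k1 := per_sq_le b1 b2 b3 ha1 ha2 ha3 c1 c2 c3
  have k2 := per_sq_le a1 a2 a3 hb1 hb2 hb3 c1 c2 c3
  have k3 := per_sq_le a1 a2 a3 hc1 hc2 hc3 b1 b2 b3
  have e1 : per b1 b2 b3 a1 a2 a3 c1 c2 c3 = per a1 a2 a3 b1 b2 b3 c1 c2 c3 := by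
    unfold per; ring
  have e3 : per a1 a2 a3 c1 c2 c3 b1 b2 b3 = per a1 a2 a3 b1 b2 b3 c1 c2 c3 := by
    unfold per; ring
  rw [e1] at k1
  rw [e3] at k3
  have r1 := row_le ha1 ha2 ha3 hr hrr
  have r2 := row_le hb1 hb2 hb3 hr hrr
  have r3 := row_le hc1 hc2 hc3 hr hrr
  have hqa : 0 ≤ a1 ^ 2 + a2 ^ 2 + a3 ^ 2 := by positivity
  have hqb : 0 ≤ b1 ^ 2 + b2 ^ 2 + b3 ^ 2 := by positivity
  have hqc : 0 ≤ c1 ^ 2 + c2 ^ 2 + c3 ^ 2 := by positivity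
  have hRa : 0 ≤ a1 ^ 2 + a2 ^ 2 + a3 ^ 2 + (a1 * a2 + a1 * a3 + a2 * a3) / 3 := by positivity
  have hRb : 0 ≤ b1 ^ 2 + b2 ^ 2 + b3 ^ 2 + (b1 * b2 + b1 * b3 + b2 * b3) / 3 := by positivity
  have hRc : 0 ≤ c1 ^ 2 + c2 ^ 2 + c3 ^ 2 + (c1 * c2 + c1 * c3 + c2 * c3) / 3 := by positivity
  clear e1 e3
  generalize per a1 a2 a3 b1 b2 b3 c1 c2 c3 = p at *
  generalize (a1 ^ 2 + a2 ^ 2 + a3 ^ 2) / 2 - 1 / 2 -
        1 / 48 * ((a1 - r) ^ 2 + (a2 - r) ^ 2 + (a3 - r) ^ 2) = Ea at *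
  generalize (b1 ^ 2 + b2 ^ 2 + b3 ^ 2) / 2 - 1 / 2 -
        1 / 48 * ((b1 - r) ^ 2 + (b2 - r) ^ 2 + (b3 - r) ^ 2) = Eb at *
  generalize (c1 ^ 2 + c2 ^ 2 + c3 ^ 2) / 2 - 1 / 2 -
        1 / 48 * ((c1 - r) ^ 2 + (c2 - r) ^ 2 + (c3 - r) ^ 2) = Ec at *
  generalize a1 ^ 2 + a2 ^ 2 + a3 ^ 2 + (a1 * a2 + a1 * a3 + a2 * a3) / 3 = Ra at *
  generalize b1 ^ 2 + b2 ^ 2 + b3 ^ 2 + (b1 * b2 + b1 * b3 + b2 * b3) / 3 = Rb at *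
  generalize c1 ^ 2 + c2 ^ 2 + c3 ^ 2 + (c1 * c2 + c1 * c3 + c2 * c3) / 3 = Rc at *
  generalize a1 ^ 2 + a2 ^ 2 + a3 ^ 2 = qa at *
  generalize b1 ^ 2 + b2 ^ 2 + b3 ^ 2 = qb at *
  generalize c1 ^ 2 + c2 ^ 2 + c3 ^ 2 = qc at *
  apply le_of_pow_le_pow_left₀ (n := 6) (by norm_num) (by positivity)
  calc p ^ 6 = p ^ 2 * p ^ 2 * p ^ 2 := by ring
    _ ≤ (qb * (qc * Ra)) * (qa * (qc * Rb)) * (qa * (qb * Rc)) := by gcongr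
    _ = (qa ^ 2 * Ra) * (qb ^ 2 * Rb) * (qc ^ 2 * Rc) := by ring
    _ ≤ (4 / 3 * exp (6 * Ea)) * (4 / 3 * exp (6 * Eb)) * (4 / 3 * exp (6 * Ec)) := by gcongr
    _ = _ := by
      rw [mul_pow, ← exp_nat_mul, show (2 * r) ^ 6 = 64 * (r ^ 2) ^ 3 by ring, hrr]
      push_cast
      rw [mul_add, mul_add, exp_add, exp_add]; ring

end Pool.Agent.MP_c4b7b1_co
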