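import Pool.Agent.MP_c4b7b1_co.Deg

/-! A discrete Laplace-method upper bound for weighted counts of labelled graph families. -/

namespace Pool.Agent.MP_c4b7b1_co

open Finset Real

variable {L : Type} [Fintype L] [DecidableEq L]

/-- divided-power monomial -/
noncomputable def mono (d : L → ℕ) (t : L → ℝ) : ℝ := ∏ l, t l ^ d l / (d l).factorial

/-- vertex generating function -/
noncomputable def fT (T : Finset (L → ℕ)) (c : (L → ℕ) → ℝ) (t : L → ℝ) : ℝ :=
  ∑ d ∈ T, c d * mono d t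

open Classical in
/-- weighted number of families of graphs all of whose degree vectors lie in `T` -/
noncomputable def cnt (V : Type) [Fintype V] [DecidableEq V]
    (T : Finset (L → ℕ)) (c : (L → ℕ) → ℝ) : ℝ :=
  ∑ F ∈ univ.filter (fun F : L → SimpleGraph V => ∀ v, (fun l => deg (F l) v) ∈ T),
    ∏ v, c (fun l => deg (F l) v)

/-- the Laplace value -/
noncomputable def Lv (D : ℕ) (P β : ℝ) (n : ℕ) : ℝ :=
  P ^ n * (√(n : ℝ)) ^ (D * n) * exp (-((D : ℝ) * n) / 2) * exp (β * √(n : ℝ))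

omit [DecidableEq L] in
lemma mono_nonneg (d : L → ℕ) {t : L → ℝ} (ht : ∀ l, 0 ≤ t l) : 0 ≤ mono d t :=
  prod_nonneg (fun l _ => by have := ht l; positivity)

omit [DecidableEq L] in
lemma fT_nonneg (T : Finset (L → ℕ)) {c : (L → ℕ) → ℝ} (hc : ∀ d, 0 ≤ c d)
    {t : L → ℝ} (ht : ∀ l, 0 ≤ t l) : 0 ≤ fT T c t :=
  sum_nonneg (fun d _ => mul_nonneg (hc d) (mono_nonneg d ht))

theorem cnt_le_grid (V : Type) [Fintype V] [DecidableEq V]
    (T : Finset (L → ℕ)) (c : (L → ℕ) → ℝ) (hc : ∀ d, 0 ≤ c d) (D N : ℕ)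
    (hD : ∀ d ∈ T, ∑ l, d l ≤ D) (hN : ⌈√((D * Fintype.card V : ℕ) : ℝ)⌉₊ < N) :
    cnt V T c ≤ (3 * exp 2) ^ Fintype.card L *
      ∑ t ∈ Fintype.piFinset (fun _ : L => range N),
        (fT T c (fun l => (t l : ℝ))) ^ Fintype.card V * exp (-(∑ l, (t l : ℝ) ^ 2) / 2) := by
  classical
  have h1 : cnt V T c = ∑ τ ∈ Fintype.piFinset (fun _ : V => T),
      (∏ v, c (τ v)) * ∏ l, ((gset (fun v => τ v l)).card : ℝ) := by
    unfold cnt
    rw [← sum_fiberwise_of_maps_to (t := Fintype.piFinset (fun _ : V => T))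
      (g := fun (F : L → SimpleGraph V) v l => deg (F l) v)]
    · apply sum_congr rfl
      intro τ hτ
      rw [Fintype.mem_piFinset] at hτ
      have e : (univ.filter (fun F : L → SimpleGraph V => ∀ v, (fun l => deg (F l) v) ∈ T)).filter
          (fun F => (fun v l => deg (F l) v) = τ) =
          Fintype.piFinset (fun l => gset (fun v => τ v l)) := by
        ext F
        simp only [mem_filter, mem_univ, true_and, Fintype.mem_piFinset, mem_gset]
        constructor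
        · rintro ⟨-, rfl⟩ l v; rfl
        · intro h
          have : (fun v l => deg (F l) v) = τ := by
            funext v l; exact h l v
          refine ⟨fun v => ?_, this⟩
          have h2 : (fun l => deg (F l) v) = τ v := congrFun this v
          rw [h2]; exact hτ v
      rw [e, sum_congr rfl (g := fun _ => ∏ v, c (τ v)), sum_const, Fintype.card_piFinset,
        nsmul_eq_mul, mul_comm]
      · push_cast; rfl
      · intro F hF
        simp only [Fintype.mem_piFinset, mem_gset] at hF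
        apply prod_congr rfl
        intro v _
        congr 1
        funext l; exact hF l v
    · intro F hF
      simp only [mem_filter, mem_univ, true_and] at hF
      exact Fintype.mem_piFinset.mpr hF
  have h2 : ∀ τ ∈ Fintype.piFinset (fun _ : V => T), ∀ l,
      ((gset (fun v => τ v l)).card : ℝ) ≤ (3 * exp 2) * ∑ t ∈ range N,
        (∏ v, (t : ℝ) ^ τ v l / (τ v l).factorial) * exp (-(t : ℝ) ^ 2 / 2) := by
    intro τ hτ l
    rw [Fintype.mem_piFinset] at hτ
    have ha := card_gset_le _ (fun v => τ v l) rfl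
    have hb : ((gset (fun v => τ v l)).card : ℝ) * ∏ v, ((τ v l).factorial : ℝ) ≤
        pm (∑ v, τ v l) := by exact_mod_cast ha
    have hm : ∑ v, τ v l ≤ D * Fintype.card V := by
      calc ∑ v, τ v l ≤ ∑ _v : V, D := by
            apply sum_le_sum
            intro v _
            exact (single_le_sum (f := τ v) (fun _ _ => Nat.zero_le _) (mem_univ l)).trans
              (hD _ (hτ v))
        _ = _ := by simp [mul_comm]
    have hN' : ⌈√((∑ v, τ v l : ℕ) : ℝ)⌉₊ < N := by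
      refine lt_of_le_of_lt (Nat.ceil_mono (sqrt_le_sqrt ?_)) hN
      exact_mod_cast hm
    have hd := pm_le_grid _ _ hN'
    have hpos : (0 : ℝ) < ∏ v, ((τ v l).factorial : ℝ) := by positivity
    rw [← le_div_iff₀ hpos] at hb
    refine hb.trans ((div_le_div_of_nonneg_right hd hpos.le).trans (le_of_eq ?_))
    rw [mul_div_assoc, sum_div]
    congr 1
    apply sum_congr rfl
    intro t _
    rw [prod_div_distrib, prod_pow_eq_pow_sum]
    ring
  rw [h1]
  calc _ ≤ ∑ τ ∈ Fintype.piFinset (fun _ : V => T), (∏ v, c (τ v)) * ∏ l : L, ((3 * exp 2) *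
        ∑ t ∈ range N, (∏ v, (t : ℝ) ^ τ v l / (τ v l).factorial) * exp (-(t : ℝ) ^ 2 / 2)) := by
        apply sum_le_sum
        intro τ hτ
        apply mul_le_mul_of_nonneg_left _ (prod_nonneg (fun v _ => hc _))
        exact prod_le_prod (fun l _ => by positivity) (fun l _ => h2 τ hτ l)
    _ = ∑ τ ∈ Fintype.piFinset (fun _ : V => T), (3 * exp 2) ^ Fintype.card L *
        ∑ t ∈ Fintype.piFinset (fun _ : L => range N),
          (∏ v, c (τ v) * mono (τ v) (fun l => (t l : ℝ))) * exp (-(∑ l, (t l : ℝ) ^ 2) / 2) := by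
        apply sum_congr rfl
        intro τ _
        rw [prod_mul_distrib, prod_const, card_univ, prod_univ_sum, mul_left_comm, mul_sum]
        congr 1
        apply sum_congr rfl
        intro t _
        rw [prod_mul_distrib, prod_mul_distrib, ← exp_sum, prod_comm, mul_assoc]
        unfold mono
        congr 3
        rw [← sum_div, ← sum_neg_distrib]
    _ = _ := by
        rw [← mul_sum, sum_comm]
        congr 1
        apply sum_congr rfl
        intro t _
        rw [← sum_mul, ← prod_univ_sum (fun _ : V => T)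
          (fun _ d => c d * mono d (fun l => (t l : ℝ))), prod_const, card_univ]
        rfl

lemma gauss_sum_le (k : ℝ) (hk : 0 < k) :
    ∃ C : ℝ, 0 ≤ C ∧ ∀ (N : ℕ) (a : ℝ), ∑ t ∈ range N, exp (-(k * ((t : ℝ) - a) ^ 2)) ≤ C := by
  have hs : Summable (fun j : ℤ => exp (-(2 * k) * |(j : ℝ)|)) := by
    have h0 : Summable (fun n : ℕ => exp (-(2 * k)) ^ n) :=
      summable_geometric_of_lt_one (exp_pos _).le (exp_lt_one_iff.mpr (by linarith))
    apply Summable.of_nat_of_neg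
    · refine h0.congr (fun n => ?_)
      rw [← exp_nat_mul]; congr 1; simp; ring
    · refine h0.congr (fun n => ?_)
      rw [← exp_nat_mul]; congr 1; simp; ring
  refine ⟨exp (3 * k) * ∑' j : ℤ, exp (-(2 * k) * |(j : ℝ)|), ?_, fun N a => ?_⟩
  · exact mul_nonneg (exp_pos _).le (tsum_nonneg (fun _ => (exp_pos _).le))
  · have h1 : ∀ t ∈ range N, exp (-(k * ((t : ℝ) - a) ^ 2)) ≤
        exp (3 * k) * exp (-(2 * k) * |(((t : ℤ) - ⌊a⌋ : ℤ) : ℝ)|) := by
      intro t _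
      rw [← exp_add]
      apply exp_le_exp.mpr
      have e1 := Int.floor_le a
      have e2 := Int.lt_floor_add_one a
      have e3 : |(((t : ℤ) - ⌊a⌋ : ℤ) : ℝ)| ≤ |(t : ℝ) - a| + 1 := by
        push_cast
        rw [abs_le]
        constructor
        · have := neg_abs_le ((t : ℝ) - a); linarith
        · have := le_abs_self ((t : ℝ) - a); linarith
      have e4 : 2 * |(t : ℝ) - a| - 1 ≤ ((t : ℝ) - a) ^ 2 := by
        rw [← sq_abs]; nlinarith [sq_nonneg (|(t : ℝ) - a| - 1)]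
      nlinarith
    refine (sum_le_sum h1).trans ?_
    rw [← mul_sum]
    apply mul_le_mul_of_nonneg_left _ (exp_pos _).le
    rw [← sum_image (s := range N) (g := fun t : ℕ => (t : ℤ) - ⌊a⌋)
      (f := fun j : ℤ => exp (-(2 * k) * |(j : ℝ)|))]
    · exact hs.sum_le_tsum _ (fun _ _ => (exp_pos _).le)
    · intro x _ y _ h
      simp only at h
      omega

omit [DecidableEq L] in
lemma mono_le_exp (d : L → ℕ) {y : L → ℝ} (hy : ∀ l, 0 ≤ y l) :
    mono d y ≤ exp (Fintype.card L + (∑ l, y l ^ 2) / 4) := by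
  unfold mono
  calc _ ≤ ∏ l, exp (1 + y l ^ 2 / 4) := by
        apply prod_le_prod (fun l _ => by have := hy l; positivity)
        intro l _
        refine (pow_div_factorial_le_exp _ (hy l) _).trans (exp_le_exp.mpr ?_)
        nlinarith [sq_nonneg (y l - 2)]
    _ = _ := by
        rw [← exp_sum, sum_add_distrib, sum_div]; simp

omit [DecidableEq L] in
lemma fT_le_exp (T : Finset (L → ℕ)) {c : (L → ℕ) → ℝ} (hc : ∀ d, 0 ≤ c d)
    {y : L → ℝ} (hy : ∀ l, 0 ≤ y l) :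
    fT T c y ≤ (∑ d ∈ T, c d) * exp (Fintype.card L + (∑ l, y l ^ 2) / 4) := by
  unfold fT
  rw [sum_mul]
  exact sum_le_sum (fun d _ => mul_le_mul_of_nonneg_left (mono_le_exp d hy) (hc d))

omit [DecidableEq L] in
lemma mono_smul (d : L → ℕ) (s : ℝ) (y : L → ℝ) :
    mono d (fun l => s * y l) = s ^ (∑ l, d l) * mono d y := by
  unfold mono
  rw [← prod_pow_eq_pow_sum, ← prod_mul_distrib]
  apply prod_congr rfl
  intro l _
  rw [mul_pow]; ring

omit [DecidableEq L] in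
lemma fT_smul_le (T : Finset (L → ℕ)) {c : (L → ℕ) → ℝ} (hc : ∀ d, 0 ≤ c d) (D : ℕ)
    (hD : ∀ d ∈ T, ∑ l, d l ≤ D) {s : ℝ} (hs : 1 ≤ s) {y : L → ℝ} (hy : ∀ l, 0 ≤ y l) :
    fT T c (fun l => s * y l) ≤ s ^ D * (fT (T.filter (fun d => ∑ l, d l = D)) c y +
      fT (T.filter (fun d => ∑ l, d l + 1 = D)) c y / s + fT T c y / s ^ 2) := by
  unfold fT
  rw [sum_filter, sum_filter, sum_div, sum_div, ← sum_add_distrib, ← sum_add_distrib, mul_sum]
  apply sum_le_sum
  intro d hd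
  have h0 : 0 ≤ c d * mono d y := mul_nonneg (hc d) (mono_nonneg d hy)
  have hs0 : 0 < s := by linarith
  rw [mono_smul, mul_left_comm]
  set A := c d * mono d y
  have hle := hD d hd
  by_cases h1 : ∑ l, d l = D
  · rw [if_pos h1, if_neg (by omega), h1]
    apply mul_le_mul_of_nonneg_left _ (by positivity)
    have : 0 ≤ A / s ^ 2 := by positivity
    simp only [zero_div, add_zero]; linarith
  · rw [if_neg h1]
    by_cases h2 : ∑ l, d l + 1 = D
    · rw [if_pos h2, ← h2, pow_succ]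
      have : 0 ≤ A / s ^ 2 := by positivity
      have e : s ^ (∑ l, d l) * A = s ^ (∑ l, d l) * s * (A / s) := by field_simp
      rw [e]
      apply mul_le_mul_of_nonneg_left _ (by positivity)
      linarith
    · rw [if_neg h2]
      have e : s ^ (∑ l, d l) * A = s ^ (∑ l, d l + 2) * (A / s ^ 2) := by
        rw [pow_add]; field_simp
      rw [e]
      simp only [zero_div, add_zero, zero_add]
      apply mul_le_mul_of_nonneg_right _ (by positivity)
      exact pow_le_pow_right₀ hs (by omega)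

omit [DecidableEq L] in
lemma lip_at (φ : (L → ℝ) → ℝ) (u : L → ℝ) (hφ : DifferentiableAt ℝ φ u) (h0 : 0 ≤ φ u)
    (B : ℝ) (hB : ∀ y : L → ℝ, (∀ l, 0 ≤ y l) → φ y ≤ B) :
    ∃ K : ℝ, 0 ≤ K ∧ ∀ y : L → ℝ, (∀ l, 0 ≤ y l) → φ y ≤ φ u + K * ‖y - u‖ := by
  obtain ⟨C, hC⟩ := hφ.isBigO_sub.bound
  obtain ⟨ε, hε, hball⟩ := Metric.eventually_nhds_iff.mp hC
  refine ⟨|C| + |B| / ε, by positivity, fun y hy => ?_⟩
  have hn : 0 ≤ ‖y - u‖ := norm_nonneg _
  by_cases h : dist y u < ε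
  · have h1 := hball h
    have h2 : φ y - φ u ≤ ‖φ y - φ u‖ := le_norm_self _
    have h3 : C * ‖y - u‖ ≤ |C| * ‖y - u‖ := by gcongr; exact le_abs_self C
    have h4 : 0 ≤ |B| / ε * ‖y - u‖ := by positivity
    nlinarith
  · push Not at h
    rw [dist_eq_norm] at h
    have h1 := hB y hy
    have h2 : |B| ≤ |B| / ε * ‖y - u‖ := by
      rw [div_mul_eq_mul_div, le_div_iff₀ hε]; gcongr
    have h3 := le_abs_self B
    have h4 : 0 ≤ |C| * ‖y - u‖ := by positivity
    nlinarith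

omit [DecidableEq L] in
lemma norm_sq_le_sum (y : L → ℝ) : ‖y‖ ^ 2 ≤ ∑ l, y l ^ 2 := by
  have h : ‖y‖ ≤ √(∑ l, y l ^ 2) := by
    apply (pi_norm_le_iff_of_nonneg (sqrt_nonneg _)).mpr
    intro l
    apply Real.abs_le_sqrt
    exact single_le_sum (f := fun l => y l ^ 2) (fun _ _ => sq_nonneg _) (mem_univ l)
  calc ‖y‖ ^ 2 ≤ √(∑ l, y l ^ 2) ^ 2 := by gcongr
    _ = _ := sq_sqrt (sum_nonneg (fun _ _ => sq_nonneg _))

omit [DecidableEq L] in
lemma fT_diff (T : Finset (L → ℕ)) (c : (L → ℕ) → ℝ) : Differentiable ℝ (fT T c) := by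
  classical
  unfold fT mono
  fun_prop

omit [DecidableEq L] in
theorem pointwise (T : Finset (L → ℕ)) (c : (L → ℕ) → ℝ) (hc : ∀ d, 0 ≤ c d) (D : ℕ)
    (hD : ∀ d ∈ T, ∑ l, d l ≤ D) (u : L → ℝ) (hu0 : ∀ l, 0 ≤ u l) (hu : ∑ l, u l ^ 2 = D)
    (P β κ : ℝ) (hP : 0 < P) (hκ : 0 < κ) (hκ' : κ ≤ 1 / 8)
    (hβ : fT (T.filter (fun d => ∑ l, d l + 1 = D)) c u ≤ β * P)
    (H : ∀ y : L → ℝ, (∀ l, 0 ≤ y l) → fT (T.filter (fun d => ∑ l, d l = D)) c y ≤
      P * exp ((∑ l, y l ^ 2) / 2 - D / 2 - κ * ∑ l, (y l - u l) ^ 2)) :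
    ∃ K : ℝ, 0 ≤ K ∧ ∀ n : ℕ, 1 ≤ n → ∀ t : L → ℝ, (∀ l, 0 ≤ t l) →
      fT T c t ^ n * exp (-(∑ l, t l ^ 2) / 2) ≤
        K * Lv D P β n * exp (-(κ / 2 * ∑ l, (t l - √(n : ℝ) * u l) ^ 2)) := by
  classical
  set E : (L → ℝ) → ℝ := fun y => (∑ l, y l ^ 2) / 2 - D / 2 - κ * ∑ l, (y l - u l) ^ 2 with hE
  set T1 := T.filter (fun d => ∑ l, d l + 1 = D) with hT1
  set T0 := T.filter (fun d => ∑ l, d l = D) with hT0
  -- boundedness
  have hbd : ∀ S : Finset (L → ℕ), ∃ B : ℝ, 0 ≤ B ∧ ∀ y : L → ℝ, (∀ l, 0 ≤ y l) →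
      fT S c y * exp (-E y) / P ≤ B := by
    intro S
    have hS : 0 ≤ ∑ d ∈ S, c d := sum_nonneg (fun d _ => hc d)
    refine ⟨(∑ d ∈ S, c d) * exp (Fintype.card L + D) / P, by positivity, fun y hy => ?_⟩
    apply div_le_div_of_nonneg_right _ hP.le
    have h1 := fT_le_exp S hc hy
    calc _ ≤ (∑ d ∈ S, c d) * exp (Fintype.card L + (∑ l, y l ^ 2) / 4) * exp (-E y) := by gcongr
      _ = (∑ d ∈ S, c d) * exp (Fintype.card L + (∑ l, y l ^ 2) / 4 + -E y) := by
          rw [mul_assoc, ← exp_add]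
      _ ≤ _ := by
          apply mul_le_mul_of_nonneg_left (exp_le_exp.mpr _) hS
          have h2 : ∑ l, (y l - u l) ^ 2 ≤ 2 * (∑ l, y l ^ 2) + 2 * D := by
            rw [← hu, mul_sum, mul_sum, ← sum_add_distrib]
            apply sum_le_sum
            intro l _
            nlinarith [sq_nonneg (y l + u l)]
          have h3 : 0 ≤ ∑ l, (y l - u l) ^ 2 := sum_nonneg (fun _ _ => sq_nonneg _)
          have h4 : κ * ∑ l, (y l - u l) ^ 2 ≤ 1 / 8 * ∑ l, (y l - u l) ^ 2 := by gcongr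
          have h5 : (0 : ℝ) ≤ D := by positivity
          simp only [hE]
          linarith
  obtain ⟨B1, -, hB1⟩ := hbd T1
  obtain ⟨B, hB0, hB⟩ := hbd T
  set φ : (L → ℝ) → ℝ := fun y => fT T1 c y * exp (-E y) / P with hφ
  have hEu : E u = 0 := by simp [hE, hu]
  have hφu : φ u ≤ β := by
    simp only [hφ, hEu, neg_zero, exp_zero, mul_one]
    rwa [div_le_iff₀ hP]
  have hφd : DifferentiableAt ℝ φ u := by
    have := fT_diff T1 c
    simp only [hφ, hE]
    fun_prop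
  obtain ⟨K, hK0, hK⟩ := lip_at φ u hφd
    (div_nonneg (mul_nonneg (fT_nonneg _ hc hu0) (exp_pos _).le) hP.le) B1 hB1
  refine ⟨exp (B + K ^ 2 / (2 * κ)), (exp_pos _).le, fun n hn t ht => ?_⟩
  have hn' : (1 : ℝ) ≤ n := by exact_mod_cast hn
  set s := √(n : ℝ) with hs
  have hs1 : 1 ≤ s := Real.le_sqrt_of_sq_le (by linarith)
  have hs0 : 0 < s := by linarith
  have hss : s ^ 2 = n := sq_sqrt (by linarith)
  set y : L → ℝ := fun l => t l / s with hy
  have hy0 : ∀ l, 0 ≤ y l := fun l => div_nonneg (ht l) hs0.le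
  have hty : t = fun l => s * y l := by
    funext l; simp only [hy]; field_simp
  have h1 := fT_smul_le T hc D hD hs1 hy0
  rw [← hty, ← hT0, ← hT1] at h1
  have h2 : fT T0 c y ≤ P * exp (E y) := H y hy0
  have hG : 0 < P * exp (E y) := by positivity
  have h3 : fT T1 c y = φ y * (P * exp (E y)) := by
    simp only [hφ]; rw [exp_neg]; field_simp
  have h4 : fT T c y ≤ B * (P * exp (E y)) := by
    have := hB y hy0
    rw [exp_neg, div_le_iff₀ hP, mul_inv_le_iff₀ (exp_pos _)] at this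
    linarith
  have h5 : fT T c t ≤ s ^ D * (P * exp (E y)) * exp (φ y / s + B / s ^ 2) := by
    refine h1.trans ?_
    rw [mul_assoc]
    apply mul_le_mul_of_nonneg_left _ (by positivity)
    have h6 := add_one_le_exp (φ y / s + B / s ^ 2)
    have h7 : fT T c y / s ^ 2 ≤ B * (P * exp (E y)) / s ^ 2 := by gcongr
    calc _ ≤ P * exp (E y) + φ y * (P * exp (E y)) / s + B * (P * exp (E y)) / s ^ 2 := by
          rw [← h3]; linarith
      _ = P * exp (E y) * (φ y / s + B / s ^ 2 + 1) := by ring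
      _ ≤ _ := by gcongr
  have h6 : fT T c t ^ n ≤ P ^ n * s ^ (D * n) * exp (n * (E y + (φ y / s + B / s ^ 2))) := by
    refine (pow_le_pow_left₀ (fT_nonneg T hc ht) h5 n).trans (le_of_eq ?_)
    rw [exp_nat_mul, exp_add (E y), pow_mul]
    simp only [mul_pow]; ring
  have e1 : ∑ l, t l ^ 2 = s ^ 2 * ∑ l, y l ^ 2 := by
    rw [mul_sum]; apply sum_congr rfl; intro l _; rw [hty]; ring
  have e2 : ∑ l, (t l - s * u l) ^ 2 = s ^ 2 * ∑ l, (y l - u l) ^ 2 := by
    rw [mul_sum]; apply sum_congr rfl; intro l _; rw [hty]; ring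
  have h7 : ‖y - u‖ ^ 2 ≤ ∑ l, (y l - u l) ^ 2 := norm_sq_le_sum (y - u)
  have h8 := hK y hy0
  have h9 : s * (K * ‖y - u‖) ≤ K ^ 2 / (2 * κ) + κ / 2 * (s ^ 2 * ‖y - u‖ ^ 2) := by
    have : 0 ≤ (K - κ * (s * ‖y - u‖)) ^ 2 / (2 * κ) := by positivity
    have e : (K - κ * (s * ‖y - u‖)) ^ 2 / (2 * κ) =
        K ^ 2 / (2 * κ) + κ / 2 * (s ^ 2 * ‖y - u‖ ^ 2) - s * (K * ‖y - u‖) := by
      field_simp; ring
    linarith
  calc _ ≤ P ^ n * s ^ (D * n) * exp (n * (E y + (φ y / s + B / s ^ 2))) *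
        exp (-(∑ l, t l ^ 2) / 2) := by gcongr
    _ = P ^ n * s ^ (D * n) * exp (n * (E y + (φ y / s + B / s ^ 2)) + -(∑ l, t l ^ 2) / 2) := by
        rw [exp_add]; ring
    _ ≤ P ^ n * s ^ (D * n) * exp (B + K ^ 2 / (2 * κ) + -((D : ℝ) * n) / 2 + β * s +
          -(κ / 2 * ∑ l, (t l - s * u l) ^ 2)) := by
        apply mul_le_mul_of_nonneg_left (exp_le_exp.mpr _) (by positivity)
        rw [e1, e2, ← hss]
        have e3 : s ^ 2 * (E y + (φ y / s + B / s ^ 2)) = s ^ 2 * E y + s * φ y + B := by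
          field_simp; ring
        rw [e3]
        simp only [hE]
        have h10 : s * φ y ≤ s * β + s * (K * ‖y - u‖) := by
          rw [← mul_add]; apply mul_le_mul_of_nonneg_left _ hs0.le; linarith
        have h11 : κ / 2 * (s ^ 2 * ‖y - u‖ ^ 2) ≤ κ / 2 * (s ^ 2 * ∑ l, (y l - u l) ^ 2) := by
          gcongr
        nlinarith
    _ = _ := by
        unfold Lv
        rw [← hs, exp_add, exp_add, exp_add]; ring

lemma Lv_pos (D : ℕ) {P : ℝ} (hP : 0 < P) (β : ℝ) {n : ℕ} (hn : 1 ≤ n) : 0 < Lv D P β n := by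
  have : (0 : ℝ) < n := by exact_mod_cast hn
  unfold Lv; positivity

/-- The Laplace upper bound. -/
theorem laplace (T : Finset (L → ℕ)) (c : (L → ℕ) → ℝ) (hc : ∀ d, 0 ≤ c d) (D : ℕ)
    (hD : ∀ d ∈ T, ∑ l, d l ≤ D) (u : L → ℝ) (hu0 : ∀ l, 0 ≤ u l) (hu : ∑ l, u l ^ 2 = D)
    (P β κ : ℝ) (hP : 0 < P) (hκ : 0 < κ) (hκ' : κ ≤ 1 / 8)
    (hβ : fT (T.filter (fun d => ∑ l, d l + 1 = D)) c u ≤ β * P)
    (H : ∀ y : L → ℝ, (∀ l, 0 ≤ y l) → fT (T.filter (fun d => ∑ l, d l = D)) c y ≤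
      P * exp ((∑ l, y l ^ 2) / 2 - D / 2 - κ * ∑ l, (y l - u l) ^ 2)) :
    ∃ C : ℝ, 0 < C ∧ ∀ n : ℕ, 1 ≤ n → cnt (Fin n) T c ≤ C * Lv D P β n := by
  obtain ⟨K, hK0, hK⟩ := pointwise T c hc D hD u hu0 hu P β κ hP hκ hκ' hβ H
  obtain ⟨C, hC0, hC⟩ := gauss_sum_le (κ / 2) (by linarith)
  refine ⟨(3 * exp 2) ^ Fintype.card L * (K * C ^ Fintype.card L) + 1, by positivity,
    fun n hn => ?_⟩
  have hL := Lv_pos D hP β hn
  have h1 := cnt_le_grid (Fin n) T c hc D _ hD (Nat.lt_succ_self _)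
  set N := (⌈√((D * Fintype.card (Fin n) : ℕ) : ℝ)⌉₊).succ
  rw [Fintype.card_fin] at h1
  have h2 : ∑ t ∈ Fintype.piFinset (fun _ : L => range N),
        (fT T c (fun l => (t l : ℝ))) ^ n * exp (-(∑ l, (t l : ℝ) ^ 2) / 2) ≤
        K * Lv D P β n * C ^ Fintype.card L := by
    calc _ ≤ ∑ t ∈ Fintype.piFinset (fun _ : L => range N),
          K * Lv D P β n * ∏ l, exp (-(κ / 2 * ((t l : ℝ) - √(n : ℝ) * u l) ^ 2)) := by
          apply sum_le_sum
          intro t _
          refine (hK n hn (fun l => (t l : ℝ)) (fun l => by positivity)).trans (le_of_eq ?_)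
          rw [← exp_sum, mul_sum, sum_neg_distrib]
      _ = K * Lv D P β n * ∏ l : L, ∑ t ∈ range N,
          exp (-(κ / 2 * ((t : ℝ) - √(n : ℝ) * u l) ^ 2)) := by
          rw [← mul_sum, prod_univ_sum]
      _ ≤ _ := by
          apply mul_le_mul_of_nonneg_left _ (by positivity)
          rw [← card_univ, ← prod_const]
          exact prod_le_prod (fun l _ => by positivity) (fun l _ => hC N _)
  calc _ ≤ _ := h1
    _ ≤ (3 * exp 2) ^ Fintype.card L * (K * Lv D P β n * C ^ Fintype.card L) := by gcongr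
    _ ≤ _ := by nlinarith

end Pool.Agent.MP_c4b7b1_co
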