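import Pool.Agent.MP_c4b7b1_co.Tools

/-! The induction step: adding one weighted matching. -/

namespace Pool.Agent.MP_c4b7b1_co

open Finset Real

/-- vertex types for two decompositions into a graph of degree at most `k` and a matching -/
def T4 (k : ℕ) : Finset (Fin 4 → ℕ) :=
  (Fintype.piFinset (fun _ => range (k + 1))).filter
    (fun d => d 1 + d 3 ≤ 1 ∧ d 2 + d 3 ≤ 1 ∧ d 0 + d 2 ≤ k ∧ d 0 + d 1 ≤ k)

/-- weights of the types -/
noncomputable def c4 (ν : ℝ) (d : Fin 4 → ℕ) : ℝ := ν ^ (1 - (d 1 + d 3)) * ν ^ (1 - (d 2 + d 3))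

lemma mem_T4 {k : ℕ} (hk : 1 ≤ k) {d : Fin 4 → ℕ} :
    d ∈ T4 k ↔ d 1 + d 3 ≤ 1 ∧ d 2 + d 3 ≤ 1 ∧ d 0 + d 2 ≤ k ∧ d 0 + d 1 ≤ k := by
  simp only [T4, mem_filter, Fintype.mem_piFinset, mem_range, and_iff_right_iff_imp]
  intro h l
  fin_cases l <;> simp <;> omega

lemma vec4_eq {a b c e : ℕ} {d : Fin 4 → ℕ} (h0 : d 0 = a) (h1 : d 1 = b) (h2 : d 2 = c)
    (h3 : d 3 = e) : ![a, b, c, e] = d := by
  funext l; fin_cases l <;> simp [h0, h1, h2, h3]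

theorem step_upper (j : ℕ) :
    ∃ C : ℝ, 0 < C ∧ ∀ n : ℕ, 1 ≤ n →
      cnt (Fin n) (T4 (j + 2)) (c4 (√((j + 3 : ℕ) : ℝ) - √((j + 2 : ℕ) : ℝ))) ≤
        C * Lv (j + 3) (PD (j + 2) ^ 2 / PD (j + 3)) √((j + 3 : ℕ) : ℝ) n := by
  classical
  obtain ⟨k, hk⟩ : ∃ k : ℝ, k = ((j + 2 : ℕ) : ℝ) := ⟨_, rfl⟩
  have hk' : k = j + 2 := by rw [hk]; push_cast; ring
  have hk1 : ((j + 3 : ℕ) : ℝ) = k + 1 := by rw [hk']; push_cast; ring
  have hj0 : (0 : ℝ) ≤ j := by positivity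
  have hk2 : 2 ≤ k := by linarith
  obtain ⟨s, hs⟩ : ∃ s, s = √((j + 3 : ℕ) : ℝ) := ⟨_, rfl⟩
  obtain ⟨ρ, hρ⟩ : ∃ ρ, ρ = √((j + 2 : ℕ) : ℝ) := ⟨_, rfl⟩
  have hs0 : 0 < s := by rw [hs]; positivity
  have hρ0 : 0 < ρ := by rw [hρ]; positivity
  have hss : s ^ 2 = k + 1 := by rw [hs, sq_sqrt (by positivity), hk1]
  have hρρ : ρ ^ 2 = k := by rw [hρ, sq_sqrt (by positivity), hk]
  have hν : 0 ≤ s - ρ := by
    have : ρ ≤ s := le_of_pow_le_pow_left₀ (n := 2) (by norm_num) hs0.le (by linarith)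
    linarith
  have hc : ∀ d, 0 ≤ c4 (s - ρ) d := fun d => by unfold c4; positivity
  obtain ⟨F, hF⟩ : ∃ F : ℝ, F = (j.factorial : ℝ) := ⟨_, rfl⟩
  have hF0 : 0 < F := by rw [hF]; positivity
  have f1 : ((j + 1).factorial : ℝ) = (k - 1) * F := by
    rw [Nat.factorial_succ, hF, hk']; push_cast; ring
  have f2 : ((j + 2).factorial : ℝ) = k * ((k - 1) * F) := by
    rw [Nat.factorial_succ, Nat.cast_mul, f1, hk]
  have f3 : ((j + 3).factorial : ℝ) = (k + 1) * (k * ((k - 1) * F)) := by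
    rw [Nat.factorial_succ, Nat.cast_mul, f2, hk1]
  have hkm : 0 < k - 1 := by linarith
  have hP : PD (j + 2) ^ 2 / PD (j + 3) = k ^ (j + 2) * (k + 1) / (k * ((k - 1) * F) * s ^ (j + 3)) := by
    unfold PD
    rw [← hs, ← hρ, f2, f3, div_pow, ← pow_mul, mul_comm (j + 2) 2, pow_mul, hρρ]
    field_simp
  rw [← hs, ← hρ, hP]
  have hu0 : ∀ l, 0 ≤ (![k / s, ρ / s, ρ / s, 1 / s] : Fin 4 → ℝ) l := by
    intro l; fin_cases l <;> simp <;> positivity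
  refine laplace (T4 (j + 2)) (c4 (s - ρ)) hc (j + 3) ?_ ![k / s, ρ / s, ρ / s, 1 / s] hu0 ?_
    _ s (1 / (2000 * k ^ 2)) (by positivity) (by positivity) ?_ ?_ ?_
  · intro d hd
    rw [mem_T4 (by omega)] at hd
    rw [Fin.sum_univ_four]; omega
  · rw [Fin.sum_univ_four, hk1]
    simp only [Matrix.cons_val_zero, Matrix.cons_val_one, Matrix.cons_val, div_pow, hss, hρρ]
    field_simp; ring
  · apply one_div_le_one_div_of_le (by norm_num); nlinarith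
  · refine (fT_le_tbl _ hc (![![j + 1, 0, 0, 1], ![j, 1, 1, 0], ![j + 1, 1, 0, 0],
      ![j + 1, 0, 1, 0], ![j + 2, 0, 0, 0]] : Fin 5 → Fin 4 → ℕ) ?_ hu0).trans (le_of_eq ?_)
    · intro d hd
      rw [mem_filter, mem_T4 (by omega), Fin.sum_univ_four] at hd
      have : (d 3 = 1) ∨ (d 3 = 0 ∧ d 1 = 1 ∧ d 2 = 1) ∨ (d 3 = 0 ∧ d 1 = 1 ∧ d 2 = 0) ∨
        (d 3 = 0 ∧ d 1 = 0 ∧ d 2 = 1) ∨ (d 3 = 0 ∧ d 1 = 0 ∧ d 2 = 0) := by omega
      rcases this with h | h | h | h | h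
      · exact ⟨0, vec4_eq (by omega) (by omega) (by omega) (by omega)⟩
      · exact ⟨1, vec4_eq (by omega) (by omega) (by omega) (by omega)⟩
      · exact ⟨2, vec4_eq (by omega) (by omega) (by omega) (by omega)⟩
      · exact ⟨3, vec4_eq (by omega) (by omega) (by omega) (by omega)⟩
      · exact ⟨4, vec4_eq (by omega) (by omega) (by omega) (by omega)⟩
    · simp only [Fin.sum_univ_five, c4, mono, Fin.prod_univ_four, Matrix.cons_val_zero,
        Matrix.cons_val_one, Matrix.cons_val, f1, f2, ← hF]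
      norm_num
      have e : k + 1 = s ^ 2 := hss.symm
      rw [e]
      simp only [div_pow, pow_succ]
      field_simp
      rw [← hρρ]
      ring
  · intro y hy
    refine (fT_le_tbl _ hc (![![j + 2, 0, 0, 1], ![j + 1, 1, 1, 0]] : Fin 2 → Fin 4 → ℕ)
      ?_ hy).trans ?_
    · intro d hd
      rw [mem_filter, mem_T4 (by omega), Fin.sum_univ_four] at hd
      have : (d 3 = 1) ∨ (d 3 = 0) := by omega
      rcases this with h | h
      · exact ⟨0, vec4_eq (by omega) (by omega) (by omega) (by omega)⟩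
      · exact ⟨1, vec4_eq (by omega) (by omega) (by omega) (by omega)⟩
    · obtain ⟨a, ha⟩ : ∃ a, a = y 0 * s / k := ⟨_, rfl⟩
      obtain ⟨b, hb⟩ : ∃ b, b = y 1 * s / ρ := ⟨_, rfl⟩
      obtain ⟨c, hc'⟩ : ∃ c, c = y 2 * s / ρ := ⟨_, rfl⟩
      obtain ⟨e, he⟩ : ∃ e, e = y 3 * s := ⟨_, rfl⟩
      have ha0 : 0 ≤ a := by have := hy 0; rw [ha]; positivity
      have hb0 : 0 ≤ b := by have := hy 1; rw [hb]; positivity
      have hc0 : 0 ≤ c := by have := hy 2; rw [hc']; positivity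
      have he0 : 0 ≤ e := by have := hy 3; rw [he]; positivity
      have y0 : y 0 = k / s * a := by rw [ha]; field_simp
      have y1 : y 1 = ρ / s * b := by rw [hb]; field_simp
      have y2 : y 2 = ρ / s * c := by rw [hc']; field_simp
      have y3 : y 3 = 1 / s * e := by rw [he]; field_simp
      have key := ineq_step_norm (j + 1) (by omega) ha0 hb0 hc0 he0 k
        (by rw [hk']; push_cast; ring)
      refine le_trans (le_of_eq ?_) ((mul_le_mul_of_nonneg_left key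
        (a := k ^ (j + 2) * (k + 1) / (k * ((k - 1) * F) * s ^ (j + 3)))
        (by positivity)).trans (le_of_eq ?_))
      · simp only [Fin.sum_univ_two, c4, mono, Fin.prod_univ_four, Matrix.cons_val_zero,
          Matrix.cons_val_one, Matrix.cons_val, f1, f2, y0, y1, y2, y3]
        norm_num
        simp only [mul_pow, div_pow, pow_succ]
        field_simp
        rw [← hρρ]
      · congr 2
        simp only [Fin.sum_univ_four, Matrix.cons_val_zero,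
          Matrix.cons_val_one, Matrix.cons_val, y0, y1, y2, y3, hk1]
        have e1 : k + 1 = s ^ 2 := hss.symm
        have e2 : ∀ x z : ℝ, x * z - x = x * (z - 1) := fun x z => by ring
        simp only [e2, mul_pow, div_pow, hss, hρρ]
        field_simp
        ring

theorem step (j : ℕ)
    (ih : ∃ C : ℝ, 0 < C ∧ ∃ N : ℕ, ∀ n ≥ N,
      Lv (j + 2) (PD (j + 2)) √((j + 2 : ℕ) : ℝ) n ≤ C * (eset (Fin n) (j + 2)).card) :
    ∃ C : ℝ, 0 < C ∧ ∃ N : ℕ, ∀ n ≥ N,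
      Lv (j + 3) (PD (j + 3)) √((j + 3 : ℕ) : ℝ) n ≤ C * (eset (Fin n) (j + 3)).card := by
  classical
  obtain ⟨C1, hC1, N1, h1⟩ := ih
  obtain ⟨C2, hC2, h2⟩ := step_upper j
  set ν := √((j + 3 : ℕ) : ℝ) - √((j + 2 : ℕ) : ℝ) with hνdef
  have hν : 0 < ν := by
    have : √((j + 2 : ℕ) : ℝ) < √((j + 3 : ℕ) : ℝ) :=
      sqrt_lt_sqrt (by positivity) (by exact_mod_cast (by omega : j + 2 < j + 3))
    linarith
  obtain ⟨C3, hC3, N3, h3⟩ := first_moment hν (j + 2)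
  refine ⟨(C1 * C3) ^ 2 * C2, by positivity, max (max N1 N3) 1, fun n hn => ?_⟩
  have hn1 : N1 ≤ n := le_of_max_le_left (le_of_max_le_left hn)
  have hn3 : N3 ≤ n := le_of_max_le_right (le_of_max_le_left hn)
  have hn0 : 1 ≤ n := le_of_max_le_right hn
  set A := (eset (Fin n) (j + 2)).sigma (fun G => mset G) with hA
  have hmemA : ∀ x ∈ A, UM (j + 2) x.1 ∧ IsM x.2 ∧ Disjoint x.1 x.2 := by
    intro x hx
    rw [hA, mem_sigma, mem_eset, mem_mset] at hx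
    exact hx
  have f1 := h3 n hn3 (eset (Fin n) (j + 2)) (fun G => G) (fun _ => 1)
    (fun G hG => (mem_eset.mp hG).deg_le) (fun _ _ => zero_le_one)
  simp only [sum_const, nsmul_eq_mul, mul_one, one_mul] at f1
  rw [← hA] at f1
  have f2 := cauchy A (eset (Fin n) (j + 3)) (fun x => x.1 ⊔ x.2)
    (fun x hx => mem_eset.mpr ⟨x.1, x.2, (hmemA x hx).1, (hmemA x hx).2.1, rfl⟩)
    (fun x => wt ν x.2)
  have hc : ∀ d, 0 ≤ c4 ν d := fun d => by unfold c4; positivity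
  have f3 : ∑ p ∈ (A ×ˢ A).filter (fun p => p.1.1 ⊔ p.1.2 = p.2.1 ⊔ p.2.2),
      wt ν p.1.2 * wt ν p.2.2 ≤ cnt (Fin n) (T4 (j + 2)) (c4 ν) := by
    have hdeg : ∀ p ∈ (A ×ˢ A).filter (fun p => p.1.1 ⊔ p.1.2 = p.2.1 ⊔ p.2.2), ∀ v,
        deg p.1.2 v = deg (p.1.2 ⊓ p.2.1) v + deg (p.1.2 ⊓ p.2.2) v ∧
        deg p.2.2 v = deg (p.1.1 ⊓ p.2.2) v + deg (p.1.2 ⊓ p.2.2) v ∧
        deg p.1.1 v = deg (p.1.1 ⊓ p.2.1) v + deg (p.1.1 ⊓ p.2.2) v ∧
        deg p.2.1 v = deg (p.1.1 ⊓ p.2.1) v + deg (p.1.2 ⊓ p.2.1) v := by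
      intro p hp v
      rw [mem_filter, mem_product] at hp
      obtain ⟨⟨hx, hy⟩, he⟩ := hp
      have d1 := (hmemA _ hx).2.2
      have d2 := (hmemA _ hy).2.2
      refine ⟨deg_split (he ▸ le_sup_right) d2 v, ?_, deg_split (he ▸ le_sup_left) d2 v, ?_⟩
      · rw [inf_comm p.1.1, inf_comm p.1.2]; exact deg_split (he.symm ▸ le_sup_right) d1 v
      · rw [inf_comm p.1.1, inf_comm p.1.2]; exact deg_split (he.symm ▸ le_sup_left) d1 v
    apply le_cnt _ (fun p => ![p.1.1 ⊓ p.2.1, p.1.2 ⊓ p.2.1, p.1.1 ⊓ p.2.2, p.1.2 ⊓ p.2.2])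
      _ _ _ hc
    · intro p hp v
      have hd := hdeg p hp v
      rw [mem_filter, mem_product] at hp
      obtain ⟨⟨hx, hy⟩, -⟩ := hp
      have a1 := (hmemA _ hx).1.deg_le v
      have a2 := (hmemA _ hy).1.deg_le v
      have a3 := (hmemA _ hx).2.1 v
      have a4 := (hmemA _ hy).2.1 v
      rw [mem_T4 (by omega)]
      simp only [Matrix.cons_val_zero, Matrix.cons_val_one, Matrix.cons_val]
      omega
    · intro p hp
      unfold wt c4
      rw [← prod_mul_distrib]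
      apply le_of_eq
      apply prod_congr rfl
      intro v _
      have hd := hdeg p hp v
      simp only [Matrix.cons_val_zero, Matrix.cons_val_one, Matrix.cons_val]
      rw [← hd.1, ← hd.2.1]
    · rintro ⟨⟨G1, M1⟩, ⟨G2, M2⟩⟩ hp ⟨⟨G1', M1'⟩, ⟨G2', M2'⟩⟩ hq h
      have hp' := (mem_filter.mp hp).2
      have hq' := (mem_filter.mp hq).2
      simp only at hp' hq'
      have e0 : G1 ⊓ G2 = G1' ⊓ G2' := congrFun h 0
      have e1 : M1 ⊓ G2 = M1' ⊓ G2' := congrFun h 1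
      have e2 : G1 ⊓ M2 = G1' ⊓ M2' := congrFun h 2
      have e3 : M1 ⊓ M2 = M1' ⊓ M2' := congrFun h 3
      have r1 : ∀ X Y Z : SimpleGraph (Fin n), X ≤ Y ⊔ Z → X = X ⊓ Y ⊔ X ⊓ Z := fun X Y Z hX => by
        rw [← inf_sup_left, inf_eq_left.mpr hX]
      have r2 : ∀ X Y Z : SimpleGraph (Fin n), X ≤ Y ⊔ Z → X = Y ⊓ X ⊔ Z ⊓ X := fun X Y Z hX => by
        rw [← inf_sup_right, inf_eq_right.mpr hX]
      have g1 : G1 = G1' := by
        rw [r1 G1 G2 M2 (hp' ▸ le_sup_left), r1 G1' G2' M2' (hq' ▸ le_sup_left), e0, e2]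
      have g2 : M1 = M1' := by
        rw [r1 M1 G2 M2 (hp' ▸ le_sup_right), r1 M1' G2' M2' (hq' ▸ le_sup_right), e1, e3]
      have g3 : G2 = G2' := by
        rw [r2 G2 G1 M1 (hp'.symm ▸ le_sup_left), r2 G2' G1' M1' (hq'.symm ▸ le_sup_left), e0, e1]
      have g4 : M2 = M2' := by
        rw [r2 M2 G1 M1 (hp'.symm ▸ le_sup_right), r2 M2' G1' M1' (hq'.symm ▸ le_sup_right), e2, e3]
      rw [g1, g2, g3, g4]
  have f4 := h2 n hn0
  have f5 := h1 n hn1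
  have hPj2 := PD_pos (k := j + 2) (by omega)
  have hPj3 := PD_pos (k := j + 3) (by omega)
  have id : (Lv (j + 2) (PD (j + 2)) √((j + 2 : ℕ) : ℝ) n * Lv 1 1 ν n) ^ 2 =
      Lv (j + 3) (PD (j + 2) ^ 2 / PD (j + 3)) √((j + 3 : ℕ) : ℝ) n *
        Lv (j + 3) (PD (j + 3)) √((j + 3 : ℕ) : ℝ) n := by
    rw [sq, Lv_mul, Lv_mul, Lv_mul]
    congr 1
    · field_simp
    · rw [hνdef]; ring
  have p1 := Lv_pos (j + 2) hPj2 √((j + 2 : ℕ) : ℝ) hn0
  have p2 := Lv_pos 1 one_pos ν hn0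
  have p3 := Lv_pos (j + 3) (P := PD (j + 2) ^ 2 / PD (j + 3)) (by positivity)
    √((j + 3 : ℕ) : ℝ) hn0
  generalize Lv (j + 2) (PD (j + 2)) √((j + 2 : ℕ) : ℝ) n = La at *
  generalize Lv 1 1 ν n = L1 at *
  generalize Lv (j + 3) (PD (j + 2) ^ 2 / PD (j + 3)) √((j + 3 : ℕ) : ℝ) n = LB at *
  generalize Lv (j + 3) (PD (j + 3)) √((j + 3 : ℕ) : ℝ) n = Lc at *
  have g1 : La * L1 ≤ C1 * C3 * ∑ x ∈ A, wt ν x.2 := by
    calc La * L1 ≤ C1 * (eset (Fin n) (j + 2)).card * L1 := by gcongr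
      _ = C1 * ((eset (Fin n) (j + 2)).card * L1) := by ring
      _ ≤ C1 * (C3 * ∑ x ∈ A, wt ν x.2) := by gcongr
      _ = _ := by ring
  have g2 : LB * Lc ≤ LB * ((C1 * C3) ^ 2 * C2 * (eset (Fin n) (j + 3)).card) := by
    calc LB * Lc = (La * L1) ^ 2 := id.symm
      _ ≤ (C1 * C3 * ∑ x ∈ A, wt ν x.2) ^ 2 := by gcongr
      _ = (C1 * C3) ^ 2 * (∑ x ∈ A, wt ν x.2) ^ 2 := by ring
      _ ≤ (C1 * C3) ^ 2 * ((eset (Fin n) (j + 3)).card * (C2 * LB)) := by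
          apply mul_le_mul_of_nonneg_left _ (by positivity)
          exact f2.trans (mul_le_mul_of_nonneg_left (f3.trans f4) (by positivity))
      _ = _ := by ring
  exact le_of_mul_le_mul_left g2 p3

end Pool.Agent.MP_c4b7b1_co
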