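import Pool.Agent.MP_c4b7b1_co.Base
import Pool.Agent.MP_c4b7b1_co.Step

/-! A positive proportion of the graphs of maximum degree at most `k` is `k`-edge-colourable. -/

namespace Pool.Agent.MP_c4b7b1_co

open Finset Real

theorem eset_lower (j : ℕ) :
    ∃ C : ℝ, 0 < C ∧ ∃ N : ℕ, ∀ n ≥ N,
      Lv (j + 3) (PD (j + 3)) √((j + 3 : ℕ) : ℝ) n ≤ C * (eset (Fin n) (j + 3)).card := by
  induction j with
  | zero => exact base
  | succ j ih => exact step (j + 1) ih

theorem bset_le_eset (j : ℕ) :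
    ∃ C : ℝ, 0 < C ∧ ∃ N : ℕ, ∀ n ≥ N,
      ((bset (Fin n) (j + 3)).card : ℝ) ≤ C * (eset (Fin n) (j + 3)).card := by
  obtain ⟨C1, hC1, N, h1⟩ := eset_lower j
  obtain ⟨C2, hC2, h2⟩ := bset_upper (j + 2)
  refine ⟨C2 * C1, by positivity, max N 1, fun n hn => ?_⟩
  refine (h2 n (le_of_max_le_right hn)).trans ?_
  rw [mul_assoc]
  exact mul_le_mul_of_nonneg_left (h1 n (le_of_max_le_left hn)) hC2.le

lemma ncard_nb {V : Type} [Fintype V] (G : SimpleGraph V) (v : V) :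
    (G.neighborSet v).ncard = deg G v := by
  unfold deg
  rw [← Set.ncard_coe_finset]
  congr 1
  ext w; simp

theorem main (D : ℕ) (hD : 3 ≤ D) :
    ∃ c : ℝ, c < 1 ∧ ∀ᶠ n : ℕ in Filter.atTop,
      (({G : SimpleGraph (Fin n) | (∀ v, (G.neighborSet v).ncard ≤ D) ∧
          G.lineGraph.chromaticNumber = (D : ℕ∞) + 1}.ncard : ℝ) /
        ({G : SimpleGraph (Fin n) | ∀ v, (G.neighborSet v).ncard ≤ D}.ncard : ℝ)) ≤ c := by
  classical
  obtain ⟨j, rfl⟩ : ∃ j, D = j + 3 := ⟨D - 3, by omega⟩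
  obtain ⟨C, hC, N, h⟩ := bset_le_eset j
  refine ⟨1 - 1 / C, by have : 0 < 1 / C := by positivity
                        linarith, Filter.eventually_atTop.mpr ⟨N, fun n hn => ?_⟩⟩
  have e1 : {G : SimpleGraph (Fin n) | ∀ v, (G.neighborSet v).ncard ≤ j + 3} =
      (bset (Fin n) (j + 3) : Set _) := by
    ext G; simp only [Set.mem_setOf_eq, mem_coe, mem_bset, ncard_nb]
  have hsub : eset (Fin n) (j + 3) ⊆ bset (Fin n) (j + 3) :=
    fun G hG => mem_bset.mpr (mem_eset.mp hG).deg_le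
  have e2 : {G : SimpleGraph (Fin n) | (∀ v, (G.neighborSet v).ncard ≤ j + 3) ∧
      G.lineGraph.chromaticNumber = ((j + 3 : ℕ) : ℕ∞) + 1} ⊆
      ((bset (Fin n) (j + 3) \ eset (Fin n) (j + 3) : Finset _) : Set _) := by
    intro G hG
    simp only [Set.mem_setOf_eq, ncard_nb] at hG
    rw [mem_coe, mem_sdiff, mem_bset, mem_eset]
    refine ⟨hG.1, fun hU => ?_⟩
    have := hU.colorable.chromaticNumber_le
    rw [hG.2] at this
    have h' : ((j + 3 + 1 : ℕ) : ℕ∞) ≤ ((j + 3 : ℕ) : ℕ∞) := by exact_mod_cast this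
    have := Nat.cast_le.mp h'
    omega
  have e3 := Set.ncard_le_ncard e2 (Finset.finite_toSet _)
  rw [Set.ncard_coe_finset, card_sdiff_of_subset hsub] at e3
  rw [e1, Set.ncard_coe_finset]
  have hpos : 0 < (bset (Fin n) (j + 3)).card :=
    card_pos.mpr ⟨⊥, mem_bset.mpr (fun v => by rw [deg_bot]; omega)⟩
  have hpos' : (0 : ℝ) < (bset (Fin n) (j + 3)).card := by exact_mod_cast hpos
  rw [div_le_iff₀ hpos']
  have e4 : (({G : SimpleGraph (Fin n) | (∀ v, (G.neighborSet v).ncard ≤ j + 3) ∧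
      G.lineGraph.chromaticNumber = ((j + 3 : ℕ) : ℕ∞) + 1}.ncard : ℕ) : ℝ) ≤
      (bset (Fin n) (j + 3)).card - (eset (Fin n) (j + 3)).card := by
    rw [← Nat.cast_sub (card_le_card hsub)]
    exact_mod_cast e3
  refine e4.trans ?_
  have e5 : 1 / C * (bset (Fin n) (j + 3)).card ≤ (eset (Fin n) (j + 3)).card := by
    rw [one_div, inv_mul_le_iff₀ hC]; exact h n hn
  linarith

end Pool.Agent.MP_c4b7b1_co
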