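import Mathlib

/-! Perfect matching numbers and their Stirling-type bounds. -/

namespace Pool.Agent.MP_c4b7b1_co

open Real Finset

/-- number of perfect matchings on `m` points -/
def pm : ℕ → ℕ
  | 0 => 1
  | 1 => 0
  | (m + 2) => (m + 1) * pm m

/-- `(m / e) ^ (m / 2)` -/
noncomputable def lap (m : ℕ) : ℝ := (√(m : ℝ)) ^ m * exp (-(m : ℝ) / 2)

lemma lap_pos (m : ℕ) : 0 < lap m := by
  unfold lap
  rcases Nat.eq_zero_or_pos m with rfl | h
  · simp
  · have : (0 : ℝ) < m := by exact_mod_cast h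
    positivity

lemma pm_odd (k : ℕ) : pm (2 * k + 1) = 0 := by
  induction k with
  | zero => rfl
  | succ k ih =>
    have : 2 * (k + 1) + 1 = (2 * k + 1) + 2 := by ring
    rw [this, pm, ih]; simp

lemma pm_even (k : ℕ) : pm (2 * k) * (2 ^ k * k.factorial) = (2 * k).factorial := by
  induction k with
  | zero => rfl
  | succ k ih =>
    have h : 2 * (k + 1) = (2 * k) + 2 := by ring
    rw [h, pm, Nat.factorial_succ (2 * k + 1), Nat.factorial_succ (2 * k), ← ih,
      Nat.factorial_succ k]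
    ring

lemma pm_pred (m : ℕ) (hm : 1 ≤ m) : (m - 1) * pm (m - 2) = pm m := by
  match m, hm with
  | 1, _ => simp [pm]
  | (m + 2), _ => simp [pm]

lemma lap_even (k : ℕ) : lap (2 * k) = (2 * (k : ℝ) / exp 1) ^ k := by
  unfold lap
  rw [pow_mul, sq_sqrt (by positivity), div_pow, ← exp_nat_mul]
  push_cast
  rw [show -(2 * (k : ℝ)) / 2 = -((k : ℝ) * 1) by ring, exp_neg]
  rfl

lemma fact_eq (n : ℕ) (hn : n ≠ 0) :
    (n.factorial : ℝ) = Stirling.stirlingSeq n * (√(2 * n) * (n / exp 1) ^ n) := by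
  unfold Stirling.stirlingSeq
  have : (0 : ℝ) < n := by exact_mod_cast Nat.pos_of_ne_zero hn
  field_simp

lemma stir_le (n : ℕ) (hn : n ≠ 0) : Stirling.stirlingSeq n ≤ 2 := by
  obtain ⟨k, rfl⟩ := Nat.exists_eq_succ_of_ne_zero hn
  have h := Stirling.stirlingSeq'_antitone (Nat.zero_le k)
  simp only [Function.comp, Nat.succ_eq_add_one, zero_add, Stirling.stirlingSeq_one] at h
  refine h.trans ?_
  rw [div_le_iff₀ (by positivity)]
  have h1 : exp 1 < 2.7182818286 := Real.exp_one_lt_d9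
  have h2 : (1.4 : ℝ) ≤ √2 := by
    apply Real.le_sqrt_of_sq_le; norm_num
  linarith

lemma le_stir (n : ℕ) (hn : n ≠ 0) : 1 ≤ Stirling.stirlingSeq n := by
  refine le_trans ?_ (Stirling.sqrt_pi_le_stirlingSeq hn)
  apply Real.le_sqrt_of_sq_le
  have := Real.pi_gt_three
  linarith

lemma pm_even_eq (k : ℕ) (hk : k ≠ 0) :
    (pm (2 * k) : ℝ) * Stirling.stirlingSeq k =
      Stirling.stirlingSeq (2 * k) * √2 * lap (2 * k) := by
  have h1 : (pm (2 * k) : ℝ) * (2 ^ k * k.factorial) = (2 * k).factorial := by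
    exact_mod_cast pm_even k
  rw [fact_eq k hk, fact_eq (2 * k) (by omega)] at h1
  have hk' : (0 : ℝ) < k := by exact_mod_cast Nat.pos_of_ne_zero hk
  rw [lap_even]
  push_cast at h1
  have e1 : √(2 * (2 * (k : ℝ))) = √2 * √(2 * k) := by
    rw [← sqrt_mul (by norm_num)]
  have e2 : (2 * (k : ℝ) / exp 1) ^ (2 * k) = (2 * (k : ℝ) / exp 1) ^ k * (2 ^ k * (k / exp 1) ^ k) := by
    rw [← mul_pow, two_mul k, pow_add]; congr 2; ring
  rw [e1, e2] at h1
  have hpos : (0 : ℝ) < 2 ^ k * (√(2 * k) * (k / exp 1) ^ k) := by positivity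
  apply mul_right_cancel₀ hpos.ne'
  linarith [h1]

lemma pm_le_lap (m : ℕ) : (pm m : ℝ) ≤ 3 * lap m := by
  rcases Nat.even_or_odd' m with ⟨k, rfl | rfl⟩
  · rcases Nat.eq_zero_or_pos k with rfl | hk
    · simp [pm, lap]
    · have h := pm_even_eq k hk.ne'
      have h1 := le_stir k hk.ne'
      have h2 := stir_le (2 * k) (by omega)
      have h3 : √2 ≤ (1.5 : ℝ) := by
        apply Real.sqrt_le_iff.mpr; norm_num
      have h4 := lap_pos (2 * k)
      have h5 : (0 : ℝ) ≤ pm (2 * k) := by positivity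
      have h6 : Stirling.stirlingSeq (2 * k) * √2 ≤ 3 := by
        have : 0 ≤ √2 := sqrt_nonneg 2
        nlinarith
      nlinarith
  · rw [pm_odd]; have := lap_pos (2 * k + 1); simp; linarith

lemma lap_le_pm (k : ℕ) : lap (2 * k) ≤ 2 * (pm (2 * k) : ℝ) := by
  rcases Nat.eq_zero_or_pos k with rfl | hk
  · simp [pm, lap]
  · have h := pm_even_eq k hk.ne'
    have h1 := le_stir (2 * k) (by omega)
    have h2 := stir_le k hk.ne'
    have h3 : (1 : ℝ) ≤ √2 := by
      apply Real.le_sqrt_of_sq_le; norm_num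
    have h4 := lap_pos (2 * k)
    have h5 : (0 : ℝ) ≤ pm (2 * k) := by positivity
    have h6 : 1 ≤ Stirling.stirlingSeq (2 * k) * √2 := by nlinarith
    nlinarith

/-- `lap m` is the maximum of `t ^ m * exp (-t^2/2)`. -/
lemma pow_exp_le_lap (m : ℕ) (t : ℝ) (ht : 0 ≤ t) : t ^ m * exp (-t ^ 2 / 2) ≤ lap m := by
  rcases Nat.eq_zero_or_pos m with rfl | hm
  · simp only [lap, pow_zero, one_mul, Nat.cast_zero, neg_zero, zero_div, exp_zero]
    apply exp_le_one_iff.mpr
    nlinarith [sq_nonneg t]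
  · have hm' : (0 : ℝ) < m := by exact_mod_cast hm
    set s := √(m : ℝ) with hs
    have hspos : 0 < s := sqrt_pos.mpr hm'
    have hss : s ^ 2 = m := sq_sqrt hm'.le
    unfold lap
    rw [← hs]
    have h1 : t / s ≤ exp (t / s - 1) := by
      have := add_one_le_exp (t / s - 1); linarith
    have h2 : (t / s) ^ m ≤ exp (m * (t / s - 1)) := by
      rw [exp_nat_mul]; exact pow_le_pow_left₀ (by positivity) h1 m
    have h3 : t ^ m = s ^ m * (t / s) ^ m := by
      rw [← mul_pow]; congr 1; field_simp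
    rw [h3, mul_assoc]
    apply mul_le_mul_of_nonneg_left _ (by positivity)
    calc (t / s) ^ m * exp (-t ^ 2 / 2) ≤ exp (m * (t / s - 1)) * exp (-t ^ 2 / 2) := by gcongr
      _ = exp (m * (t / s - 1) + -t ^ 2 / 2) := by rw [exp_add]
      _ ≤ exp (-(m : ℝ) / 2) := by
        apply exp_le_exp.mpr
        have : (m : ℝ) * (t / s) = s * t := by rw [← hss]; field_simp
        nlinarith [sq_nonneg (t - s)]

/-- `lap m` is comparable with the value at the nearest integer above `√m`. -/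
lemma lap_le_grid (m : ℕ) :
    lap m ≤ exp 2 * ((⌈√(m : ℝ)⌉₊ : ℝ) ^ m * exp (-(⌈√(m : ℝ)⌉₊ : ℝ) ^ 2 / 2)) := by
  rcases Nat.eq_zero_or_pos m with rfl | hm
  · simp [lap]
  · have hm' : (0 : ℝ) < m := by exact_mod_cast hm
    set s := √(m : ℝ) with hs
    have hspos : 0 < s := sqrt_pos.mpr hm'
    have hss : s ^ 2 = m := sq_sqrt hm'.le
    set t : ℝ := (⌈s⌉₊ : ℝ) with ht
    have ht1 : s ≤ t := Nat.le_ceil s
    have ht2 : t ≤ s + 1 := (Nat.ceil_lt_add_one hspos.le).le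
    have htpos : 0 < t := lt_of_lt_of_le hspos ht1
    unfold lap
    rw [← hs]
    have h1 : s / t ≤ exp (s / t - 1) := by
      have := add_one_le_exp (s / t - 1); linarith
    have h2 : (s / t) ^ m ≤ exp (m * (s / t - 1)) := by
      rw [exp_nat_mul]; exact pow_le_pow_left₀ (by positivity) h1 m
    have h3 : s ^ m = t ^ m * (s / t) ^ m := by
      rw [← mul_pow]; congr 1; field_simp
    rw [h3, mul_assoc, mul_left_comm (exp 2)]
    apply mul_le_mul_of_nonneg_left _ (by positivity)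
    calc (s / t) ^ m * exp (-(m : ℝ) / 2) ≤ exp (m * (s / t - 1)) * exp (-(m : ℝ) / 2) := by gcongr
      _ = exp (m * (s / t - 1) + -(m : ℝ) / 2) := by rw [exp_add]
      _ ≤ exp (2 + -t ^ 2 / 2) := by
        apply exp_le_exp.mpr
        rw [← hss]
        have key : s ^ 2 * (s / t - 1) ≤ -(s * (t - s)) + (t - s) ^ 2 := by
          have e : s ^ 2 * (s / t - 1) = -(s ^ 2 * (t - s)) / t := by field_simp; ring
          rw [e, div_le_iff₀ htpos]
          have : 0 ≤ (t - s) ^ 3 := by apply pow_nonneg; linarith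
          nlinarith
        nlinarith
      _ = exp 2 * exp (-t ^ 2 / 2) := by rw [exp_add]

lemma pm_le_grid (m N : ℕ) (hN : ⌈√(m : ℝ)⌉₊ < N) :
    (pm m : ℝ) ≤ 3 * exp 2 * ∑ t ∈ range N, (t : ℝ) ^ m * exp (-(t : ℝ) ^ 2 / 2) := by
  have h1 := pm_le_lap m
  have h2 := lap_le_grid m
  have h3 : ((⌈√(m : ℝ)⌉₊ : ℝ) ^ m * exp (-(⌈√(m : ℝ)⌉₊ : ℝ) ^ 2 / 2)) ≤
      ∑ t ∈ range N, (t : ℝ) ^ m * exp (-(t : ℝ) ^ 2 / 2) :=
    single_le_sum (f := fun t : ℕ => (t : ℝ) ^ m * exp (-(t : ℝ) ^ 2 / 2))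
      (fun t _ => by positivity) (mem_range.mpr hN)
  have h4 : 0 < exp 2 := exp_pos 2
  nlinarith

end Pool.Agent.MP_c4b7b1_co
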