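import Pool.Agent.MP_c4b7b1_co.Laplace

/-! Weighted matchings: a lower bound, and a switching argument for avoiding a sparse graph. -/

namespace Pool.Agent.MP_c4b7b1_co

open Finset Real

variable {V : Type} [Fintype V] [DecidableEq V]

/-- matchings -/
def IsM (M : SimpleGraph V) : Prop := ∀ v, deg M v ≤ 1

/-- weight of a matching -/
noncomputable def wt (ν : ℝ) (M : SimpleGraph V) : ℝ := ∏ v, ν ^ (1 - deg M v)

open Classical in
/-- matchings edge-disjoint from `H` -/
noncomputable def mset (H : SimpleGraph V) : Finset (SimpleGraph V) :=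
  univ.filter (fun M => IsM M ∧ Disjoint H M)

open Classical in
/-- matchings avoiding a set of pairs -/
noncomputable def aset (P : Finset (V × V)) : Finset (SimpleGraph V) :=
  univ.filter (fun M => IsM M ∧ ∀ p ∈ P, ¬ M.Adj p.1 p.2)

lemma mem_mset {H M : SimpleGraph V} : M ∈ mset H ↔ IsM M ∧ Disjoint H M := by
  simp [mset]

lemma mem_aset {P : Finset (V × V)} {M : SimpleGraph V} :
    M ∈ aset P ↔ IsM M ∧ ∀ p ∈ P, ¬ M.Adj p.1 p.2 := by
  simp only [aset, mem_filter, mem_univ, true_and]

omit [DecidableEq V] in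
lemma wt_nonneg {ν : ℝ} (hν : 0 ≤ ν) (M : SimpleGraph V) : 0 ≤ wt ν M :=
  prod_nonneg (fun _ _ => pow_nonneg hν _)

omit [DecidableEq V] in
lemma deg_comap (M : SimpleGraph V) (e : V ≃ V) (v : V) : deg (M.comap e) v = deg M (e v) := by
  unfold deg
  apply card_bij (fun x _ => e x)
  · intro x hx; simpa using hx
  · intro x _ y _ h; exact e.injective h
  · intro y hy
    refine ⟨e.symm y, ?_, by simp⟩
    simpa using hy

omit [DecidableEq V] in
lemma wt_comap (ν : ℝ) (M : SimpleGraph V) (e : V ≃ V) : wt ν (M.comap e) = wt ν M := by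
  unfold wt
  simp only [deg_comap]
  exact e.prod_comp (fun v => ν ^ (1 - deg M v))

open Classical in
lemma switch_step {ν : ℝ} (hν : 0 ≤ ν) (H : SimpleGraph V) (D : ℕ) (hH : ∀ v, deg H v ≤ D)
    (P : Finset (V × V)) (hP : ∀ p ∈ P, H.Adj p.1 p.2) (a b : V) :
    ((Fintype.card V : ℝ) - 2 - 2 * D) * ∑ M ∈ (aset P).filter (fun M => M.Adj a b), wt ν M ≤
      ∑ M ∈ aset (insert (a, b) P), wt ν M := by
  set X := (aset P).filter (fun M => M.Adj a b) with hX
  set good : SimpleGraph V → Finset V :=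
    fun M => univ \ (({a, b} ∪ nb H a) ∪ (nb H b).biUnion (nb M)) with hgood
  have hcard : ∀ M ∈ X, (Fintype.card V : ℝ) - 2 - 2 * D ≤ (good M).card := by
    intro M hM
    rw [hX, mem_filter, mem_aset] at hM
    have h1 : ((nb H b).biUnion (nb M)).card ≤ D := by
      refine card_biUnion_le.trans ?_
      calc ∑ x ∈ nb H b, (nb M x).card ≤ ∑ _x ∈ nb H b, 1 := sum_le_sum (fun x _ => hM.1.1 x)
        _ = deg H b := by simp [deg]
        _ ≤ D := hH b
    have h2 : (({a, b} : Finset V) ∪ nb H a).card ≤ 2 + D :=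
      (card_union_le _ _).trans (add_le_add card_le_two (hH a))
    have h3 := card_union_le (({a, b} : Finset V) ∪ nb H a) ((nb H b).biUnion (nb M))
    have h4 := le_card_sdiff (({a, b} ∪ nb H a) ∪ (nb H b).biUnion (nb M)) (univ : Finset V)
    rw [card_univ] at h4
    have h5 : Fintype.card V ≤ (good M).card + (2 + 2 * D) := by
      simp only [hgood]; omega
    have h6 : (Fintype.card V : ℝ) ≤ (good M).card + (2 + 2 * D) := by exact_mod_cast h5
    linarith
  have hg : ∀ M c, c ∈ good M → c ≠ a ∧ c ≠ b ∧ ¬ H.Adj a c ∧ ∀ d, H.Adj b d → ¬ M.Adj d c := by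
    intro M c hc
    simp only [hgood, mem_sdiff, mem_univ, true_and, mem_union, mem_insert, mem_singleton,
      mem_nb, mem_biUnion, not_or, not_exists, not_and] at hc
    exact ⟨hc.1.1.1, hc.1.1.2, hc.1.2, hc.2⟩
  set g : (Σ _ : SimpleGraph V, V) → SimpleGraph V :=
    fun x => x.1.comap (Equiv.swap b x.2) with hgdef
  have hmaps : ∀ x ∈ X.sigma good, g x ∈ aset (insert (a, b) P) ∧ (g x).Adj a x.2 := by
    rintro ⟨M, c⟩ hx
    rw [mem_sigma, hX, mem_filter, mem_aset] at hx
    obtain ⟨⟨⟨hM, hMP⟩, hab⟩, hc⟩ := hx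
    obtain ⟨hca, hcb, hac, hd⟩ := hg M c hc
    simp only at hab hM hMP hca hcb hac hd
    have huniq : ∀ v x y, M.Adj v x → M.Adj v y → x = y := fun v => deg_le_one.mp (hM v)
    have hab' : a ≠ b := hab.ne
    have hsa : Equiv.swap b c a = a := Equiv.swap_apply_of_ne_of_ne hab' hca.symm
    have key : ∀ x y, H.Adj x y → ¬ M.Adj x y → (x = b ∨ x = c ∨ (y ≠ b ∧ y ≠ c)) →
        ¬ M.Adj (Equiv.swap b c x) (Equiv.swap b c y) := by
      intro x y hxy hn hcase hadj
      by_cases hxb : x = b
      · subst hxb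
        rw [Equiv.swap_apply_left] at hadj
        by_cases hyc : y = c
        · subst hyc
          rw [Equiv.swap_apply_right] at hadj
          exact hca (huniq x _ _ hadj.symm hab.symm)
        · rw [Equiv.swap_apply_of_ne_of_ne hxy.ne.symm hyc] at hadj
          exact hd y hxy hadj.symm
      · by_cases hxc : x = c
        · subst hxc
          rw [Equiv.swap_apply_right] at hadj
          have := huniq b _ _ hadj hab.symm
          rw [← hsa] at this
          have := (Equiv.swap b x).injective this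
          subst this
          exact hac hxy.symm
        · have hy : y ≠ b ∧ y ≠ c := by tauto
          rw [Equiv.swap_apply_of_ne_of_ne hxb hxc, Equiv.swap_apply_of_ne_of_ne hy.1 hy.2] at hadj
          exact hn hadj
    refine ⟨mem_aset.mpr ⟨fun v => ?_, ?_⟩, ?_⟩
    · simp only [hgdef, deg_comap]; exact hM _
    · intro p hp
      rw [mem_insert] at hp
      simp only [hgdef, SimpleGraph.comap_adj]
      rcases hp with rfl | hp
      · simp only [hsa, Equiv.swap_apply_left]
        intro h; exact hcb (huniq a _ _ h hab)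
      · by_cases hcase : p.1 = b ∨ p.1 = c ∨ (p.2 ≠ b ∧ p.2 ≠ c)
        · exact key _ _ (hP p hp) (hMP p hp) hcase
        · intro h
          refine key p.2 p.1 (hP p hp).symm (fun h' => hMP p hp h'.symm) ?_ h.symm
          tauto
    · simp only [hgdef, SimpleGraph.comap_adj, hsa, Equiv.swap_apply_right]; exact hab
  have hinj : Set.InjOn g (X.sigma good : Finset _) := by
    rintro ⟨M, c⟩ hx ⟨M', c'⟩ hy h
    have h1 := hmaps _ hx
    have h2 := hmaps _ hy
    rw [← h] at h2
    have hcc : c = c' := deg_le_one.mp ((mem_aset.mp h1.1).1 a) _ _ h1.2 h2.2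
    subst hcc
    have : M = M' := by
      ext x y
      have := congrArg (fun G : SimpleGraph V => G.Adj (Equiv.swap b c x) (Equiv.swap b c y)) h
      simpa [hgdef] using this
    rw [this]
  calc _ = ∑ M ∈ X, ((Fintype.card V : ℝ) - 2 - 2 * D) * wt ν M := by rw [mul_sum]
    _ ≤ ∑ M ∈ X, ∑ c ∈ good M, wt ν (g ⟨M, c⟩) := by
        apply sum_le_sum
        intro M hM
        simp only [hgdef, wt_comap, sum_const, nsmul_eq_mul]
        exact mul_le_mul_of_nonneg_right (hcard M hM) (wt_nonneg hν M)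
    _ = ∑ x ∈ X.sigma good, wt ν (g x) := by rw [sum_sigma]
    _ = ∑ y ∈ (X.sigma good).image g, wt ν y := by rw [sum_image hinj]
    _ ≤ _ := by
        apply sum_le_sum_of_subset_of_nonneg
        · intro y hy
          obtain ⟨x, hx, rfl⟩ := mem_image.mp hy
          exact (hmaps x hx).1
        · intro y _ _; exact wt_nonneg hν y

lemma switch_all {ν : ℝ} (hν : 0 ≤ ν) (H : SimpleGraph V) (D : ℕ) (hH : ∀ v, deg H v ≤ D)
    (hn : 4 * D + 4 ≤ Fintype.card V) (P : Finset (V × V)) (hP : ∀ p ∈ P, H.Adj p.1 p.2) :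
    ∑ M ∈ aset (∅ : Finset (V × V)), wt ν M ≤
      exp (2 / Fintype.card V) ^ P.card * ∑ M ∈ aset P, wt ν M := by
  classical
  induction P using Finset.induction_on with
  | empty => simp
  | insert p P hp ih =>
    have hP' : ∀ q ∈ P, H.Adj q.1 q.2 := fun q hq => hP q (mem_insert_of_mem hq)
    refine (ih hP').trans ?_
    rw [card_insert_of_notMem hp, pow_succ, mul_assoc]
    apply mul_le_mul_of_nonneg_left _ (by positivity)
    have h1 := switch_step hν H D hH P hP' p.1 p.2
    have h2 : ∑ M ∈ aset P, wt ν M = ∑ M ∈ (aset P).filter (fun M => M.Adj p.1 p.2), wt ν M +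
        ∑ M ∈ aset (insert p P), wt ν M := by
      rw [← sum_filter_add_sum_filter_not (aset P) (fun M => M.Adj p.1 p.2)]
      congr 2
      ext M
      simp only [mem_filter, mem_aset, forall_mem_insert]
      tauto
    set A := ∑ M ∈ (aset P).filter (fun M => M.Adj p.1 p.2), wt ν M
    set B := ∑ M ∈ aset (insert p P), wt ν M
    have hA : 0 ≤ A := sum_nonneg (fun _ _ => wt_nonneg hν _)
    have hB : 0 ≤ B := sum_nonneg (fun _ _ => wt_nonneg hν _)
    have hn' : 4 * (D : ℝ) + 4 ≤ Fintype.card V := by exact_mod_cast hn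
    have hD : (0 : ℝ) ≤ D := by positivity
    set n : ℝ := (Fintype.card V : ℝ)
    have hn0 : 0 < n := by linarith
    have h3 : A ≤ 2 / n * B := by
      rw [div_mul_eq_mul_div, le_div_iff₀ hn0]
      have h1' : (n - 2 - 2 * D) * A ≤ B := h1
      nlinarith
    have h4 := add_one_le_exp (2 / n)
    rw [h2]
    nlinarith

theorem switch {ν : ℝ} (hν : 0 ≤ ν) (H : SimpleGraph V) (D : ℕ) (hH : ∀ v, deg H v ≤ D)
    (hn : 4 * D + 4 ≤ Fintype.card V) :
    ∑ M ∈ mset (⊥ : SimpleGraph V), wt ν M ≤ exp (2 * D) * ∑ M ∈ mset H, wt ν M := by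
  classical
  set P : Finset (V × V) := univ.filter (fun p => H.Adj p.1 p.2) with hPdef
  have h1 := switch_all hν H D hH hn P (fun p hp => (mem_filter.mp hp).2)
  have e1 : aset (∅ : Finset (V × V)) = mset ⊥ := by
    ext M; simp [mem_aset, mem_mset]
  have e2 : aset P = mset H := by
    ext M
    simp only [mem_aset, mem_mset, hPdef, mem_filter, mem_univ, true_and, Prod.forall]
    refine and_congr_right (fun _ => ?_)
    rw [disjoint_iff]
    constructor
    · intro h; ext x y
      simp only [SimpleGraph.inf_adj, SimpleGraph.bot_adj, iff_false, not_and]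
      exact h x y
    · intro h x y h1 h2
      have : (H ⊓ M).Adj x y := ⟨h1, h2⟩
      rw [h] at this; exact this
  rw [e1, e2] at h1
  refine h1.trans (mul_le_mul_of_nonneg_right ?_ (sum_nonneg (fun _ _ => wt_nonneg hν _)))
  have hc : P.card ≤ D * Fintype.card V := by
    have : P = (univ : Finset V).biUnion (fun v => (nb H v).image (fun w => (v, w))) := by
      ext ⟨x, y⟩; simp [hPdef]
    rw [this]
    refine card_biUnion_le.trans ?_
    calc _ ≤ ∑ _v : V, D := sum_le_sum (fun v _ => card_image_le.trans (hH v))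
      _ = _ := by simp [mul_comm]
  have hn0 : (0 : ℝ) < Fintype.card V := by exact_mod_cast (by omega : 0 < Fintype.card V)
  rw [← exp_nat_mul]
  apply exp_le_exp.mpr
  have hc' : (P.card : ℝ) ≤ D * Fintype.card V := by exact_mod_cast hc
  rw [← mul_div_assoc, div_le_iff₀ hn0]
  linarith

lemma sum_mset_ge {ν : ℝ} (hν : 0 ≤ ν) :
    ∑ S ∈ (univ : Finset V).powerset, (pm S.card : ℝ) * ν ^ (Fintype.card V - S.card) ≤
      ∑ M ∈ mset (⊥ : SimpleGraph V), wt ν M := by
  classical
  rw [← sum_fiberwise_of_maps_to (s := mset ⊥) (t := (univ : Finset V).powerset)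
    (g := fun M => univ.filter (fun v => deg M v = 1)) (fun _ _ => by simp)]
  apply sum_le_sum
  intro S _
  have e : (mset (⊥ : SimpleGraph V)).filter (fun M => univ.filter (fun v => deg M v = 1) = S) =
      gset (fun v => if v ∈ S then 1 else 0) := by
    ext M
    simp only [mem_filter, mem_mset, mem_gset, disjoint_bot_left, and_true]
    constructor
    · rintro ⟨hM, rfl⟩ v
      have := hM v
      simp only [mem_filter, mem_univ, true_and]
      split_ifs <;> omega
    · intro h
      refine ⟨fun v => ?_, ?_⟩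
      · rw [h v]; split_ifs <;> omega
      · ext v; simp [h v]
  rw [e, sum_congr rfl (g := fun _ => ν ^ (Fintype.card V - S.card)), sum_const, nsmul_eq_mul]
  · apply mul_le_mul_of_nonneg_right _ (by positivity)
    exact_mod_cast pm_le_card _ S rfl
  · intro M hM
    rw [mem_gset] at hM
    unfold wt
    simp only [hM]
    rw [prod_pow_eq_pow_sum]
    congr 1
    rw [← card_compl, card_eq_sum_ones, ← sum_filter_add_sum_filter_not univ (fun v => v ∈ S)]
    rw [sum_eq_zero (s := univ.filter (fun v => v ∈ S)), zero_add]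
    · apply sum_congr
      · ext v; simp
      · intro v hv; simp only [mem_compl] at hv; simp [hv]
    · intro v hv; simp only [mem_filter, mem_univ, true_and] at hv; simp [hv]

lemma pm_ge_even (m : ℕ) (t : ℝ) (ht : 0 ≤ t) :
    exp (-t ^ 2 / 2) / 4 * (t ^ m + (-t) ^ m) ≤ pm m := by
  rcases Nat.even_or_odd' m with ⟨k, rfl | rfl⟩
  · have h1 := lap_le_pm k
    have h2 := pow_exp_le_lap (2 * k) t ht
    rw [Even.neg_pow (even_two_mul k)]
    linarith
  · rw [Odd.neg_pow (odd_two_mul_add_one k)]; simp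

theorem matchings_lower {ν : ℝ} (hν : 0 < ν) :
    ∃ C : ℝ, 0 < C ∧ ∃ N : ℕ, ∀ n ≥ N,
      Lv 1 1 ν n ≤ C * ∑ M ∈ mset (⊥ : SimpleGraph (Fin n)), wt ν M := by
  refine ⟨8 * exp (ν ^ 2), by positivity, ⌈(ν + 1 / ν) ^ 2⌉₊, fun n hn => ?_⟩
  set s := √(n : ℝ) with hs
  have hss : s ^ 2 = n := sq_sqrt (by positivity)
  have hs1 : ν + 1 / ν ≤ s := Real.le_sqrt_of_sq_le (Nat.ceil_le.mp hn)
  have hν' : 0 < 1 / ν := by positivity
  have hs0 : 0 < s := by linarith
  have h1 := sum_mset_ge (V := Fin n) hν.le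
  have h2 : exp (-s ^ 2 / 2) / 4 * ((s + ν) ^ n + (-s + ν) ^ n) ≤
      ∑ S ∈ (univ : Finset (Fin n)).powerset,
        (pm S.card : ℝ) * ν ^ (Fintype.card (Fin n) - S.card) := by
    have e1 := sum_pow_mul_eq_add_pow s ν (univ : Finset (Fin n))
    have e2 := sum_pow_mul_eq_add_pow (-s) ν (univ : Finset (Fin n))
    rw [card_univ, Fintype.card_fin] at e1 e2
    rw [← e1, ← e2, ← sum_add_distrib, mul_sum, Fintype.card_fin]
    apply sum_le_sum
    intro S _
    rw [← add_mul, ← mul_assoc]
    exact mul_le_mul_of_nonneg_right (pm_ge_even _ s hs0.le) (by positivity)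
  have h3 : 2 * (s - ν) ^ n ≤ (s + ν) ^ n := by
    have ha : 0 ≤ 2 * ν / (s + ν) := by positivity
    have hb := one_add_mul_le_pow (a := 2 * ν / (s + ν)) (by linarith) n
    have hc : 1 ≤ (n : ℝ) * (2 * ν / (s + ν)) := by
      rw [← mul_div_assoc, le_div_iff₀ (by positivity), ← hss]
      have : 1 ≤ ν * s := by
        have : ν * (1 / ν) = 1 := by field_simp
        nlinarith
      nlinarith
    have hd : (1 + 2 * ν / (s + ν)) * (s - ν) ≤ s + ν := by
      have e : (1 + 2 * ν / (s + ν)) * (s - ν) = ((s + 3 * ν) * (s - ν)) / (s + ν) := by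
        field_simp; ring
      rw [e, div_le_iff₀ (by positivity)]
      nlinarith
    have he : 0 ≤ s - ν := by linarith
    calc 2 * (s - ν) ^ n ≤ (1 + 2 * ν / (s + ν)) ^ n * (s - ν) ^ n := by
          apply mul_le_mul_of_nonneg_right _ (by positivity); linarith
      _ = ((1 + 2 * ν / (s + ν)) * (s - ν)) ^ n := by rw [mul_pow]
      _ ≤ _ := pow_le_pow_left₀ (by positivity) hd n
  have h4 : -(s - ν) ^ n ≤ (-s + ν) ^ n := by
    have : -s + ν = -(s - ν) := by ring
    rw [this]
    have he : 0 ≤ (s - ν) ^ n := by apply pow_nonneg; linarith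
    rcases neg_one_pow_eq_or ℝ n with h | h <;> rw [neg_pow, h] <;> linarith
  have h5 : s ^ n * exp (ν * s - ν ^ 2) ≤ (s + ν) ^ n := by
    set x := ν / s with hx
    have hx0 : 0 ≤ x := by positivity
    have ha : exp (x - x ^ 2) ≤ 1 + x := by
      have hb := add_one_le_exp (-(x - x ^ 2))
      have hc : exp (x - x ^ 2) * exp (-(x - x ^ 2)) = 1 := by rw [← exp_add]; simp
      have hd := exp_pos (x - x ^ 2)
      have he : 0 ≤ x ^ 3 := by positivity
      by_contra hcon
      push Not at hcon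
      have hf : 0 < -(x - x ^ 2) + 1 := by nlinarith [sq_nonneg (x - 1 / 2)]
      have : (1 + x) * (-(x - x ^ 2) + 1) < exp (x - x ^ 2) * exp (-(x - x ^ 2)) :=
        mul_lt_mul hcon hb hf hd.le
      nlinarith
    have hb : ν * s - ν ^ 2 = n * (x - x ^ 2) := by
      rw [← hss, hx]; field_simp
    rw [hb, exp_nat_mul, ← mul_pow]
    apply pow_le_pow_left₀ (by positivity)
    calc s * exp (x - x ^ 2) ≤ s * (1 + x) := by gcongr
      _ = s + ν := by rw [hx]; field_simp
  have e3 : Lv 1 1 ν n = 8 * exp (ν ^ 2) *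
      (exp (-s ^ 2 / 2) / 4 * (s ^ n * exp (ν * s - ν ^ 2) / 2)) := by
    unfold Lv
    rw [← hs, exp_sub, hss]
    simp only [one_pow, one_mul, Nat.cast_one]
    field_simp; ring
  rw [e3]
  apply mul_le_mul_of_nonneg_left _ (by positivity)
  refine le_trans ?_ (h2.trans h1)
  apply mul_le_mul_of_nonneg_left _ (by positivity)
  linarith

/-- weighted matchings avoiding a sparse graph -/
theorem avoid_lower {ν : ℝ} (hν : 0 < ν) (D : ℕ) :
    ∃ C : ℝ, 0 < C ∧ ∃ N : ℕ, ∀ n ≥ N, ∀ H : SimpleGraph (Fin n), (∀ v, deg H v ≤ D) →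
      Lv 1 1 ν n ≤ C * ∑ M ∈ mset H, wt ν M := by
  obtain ⟨C, hC, N, hN⟩ := matchings_lower hν
  refine ⟨C * exp (2 * D), by positivity, max N (4 * D + 4), fun n hn H hH => ?_⟩
  refine (hN n (le_of_max_le_left hn)).trans ?_
  rw [mul_assoc]
  apply mul_le_mul_of_nonneg_left _ hC.le
  exact switch hν.le H D hH (by rw [Fintype.card_fin]; exact le_of_max_le_right hn)

end Pool.Agent.MP_c4b7b1_co
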