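import Pool.Agent.MP_c4b7b1_co.Switch
import Pool.Agent.MP_c4b7b1_co.Ineq

/-! Cauchy-Schwarz, unions of matchings, and the count of all bounded degree graphs. -/

namespace Pool.Agent.MP_c4b7b1_co

open Finset Real

lemma cauchy {α β : Type*} [DecidableEq β] (A : Finset α) (E : Finset β) (pr : α → β)
    (hpr : ∀ a ∈ A, pr a ∈ E) (w : α → ℝ) :
    (∑ a ∈ A, w a) ^ 2 ≤
      E.card * ∑ p ∈ (A ×ˢ A).filter (fun p => pr p.1 = pr p.2), w p.1 * w p.2 := by
  rw [← sum_fiberwise_of_maps_to hpr]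
  refine sq_sum_le_card_mul_sum_sq.trans (le_of_eq ?_)
  congr 1
  rw [← sum_fiberwise_of_maps_to (s := (A ×ˢ A).filter (fun p => pr p.1 = pr p.2)) (t := E)
    (g := fun p => pr p.1)]
  · apply sum_congr rfl
    intro b _
    rw [sq, sum_mul_sum, ← sum_product']
    apply sum_congr _ (fun _ _ => rfl)
    ext ⟨x, y⟩
    simp only [mem_product, mem_filter]
    constructor
    · rintro ⟨⟨h1, h2⟩, h3, h4⟩; exact ⟨⟨⟨h1, h3⟩, h2.trans h4.symm⟩, h2⟩
    · rintro ⟨⟨⟨h1, h3⟩, h2⟩, h4⟩; exact ⟨⟨h1, h4⟩, h3, h2.symm.trans h4⟩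
  · intro p hp
    exact hpr _ (mem_product.mp (mem_filter.mp hp).1).1

variable {L : Type} [Fintype L] [DecidableEq L] {V : Type} [Fintype V] [DecidableEq V]

lemma le_cnt {α : Type*} (X : Finset α) (g : α → L → SimpleGraph V) (hg : Set.InjOn g X)
    (T : Finset (L → ℕ)) (c : (L → ℕ) → ℝ) (hc : ∀ d, 0 ≤ c d) (w : α → ℝ)
    (hT : ∀ x ∈ X, ∀ v, (fun l => deg (g x l) v) ∈ T)
    (hw : ∀ x ∈ X, w x ≤ ∏ v, c (fun l => deg (g x l) v)) :
    ∑ x ∈ X, w x ≤ cnt V T c := by
  classical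
  refine (sum_le_sum hw).trans ?_
  rw [← sum_image (s := X) (g := g)
    (f := fun F : L → SimpleGraph V => ∏ v, c (fun l => deg (F l) v)) hg]
  unfold cnt
  apply sum_le_sum_of_subset_of_nonneg
  · intro F hF
    obtain ⟨x, hx, rfl⟩ := mem_image.mp hF
    simp only [mem_filter, mem_univ, true_and]
    exact hT x hx
  · intro F _ _
    exact prod_nonneg (fun _ _ => hc _)

omit [DecidableEq L] in
lemma fT_le_tbl {I : Type} [Fintype I] (S : Finset (L → ℕ)) {c : (L → ℕ) → ℝ}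
    (hc : ∀ d, 0 ≤ c d) (tbl : I → L → ℕ) (h : ∀ d ∈ S, ∃ i, tbl i = d)
    {y : L → ℝ} (hy : ∀ l, 0 ≤ y l) :
    fT S c y ≤ ∑ i, c (tbl i) * mono (tbl i) y := by
  classical
  unfold fT
  have h0 : ∀ d, 0 ≤ c d * mono d y := fun d => mul_nonneg (hc d) (mono_nonneg d hy)
  calc _ ≤ ∑ d ∈ univ.image tbl, c d * mono d y := by
        apply sum_le_sum_of_subset_of_nonneg _ (fun d _ _ => h0 d)
        intro d hd
        obtain ⟨i, hi⟩ := h d hd
        exact mem_image.mpr ⟨i, mem_univ _, hi⟩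
    _ ≤ _ := sum_image_le_of_nonneg (fun d _ => h0 d)

lemma Lv_mul (D D' : ℕ) (P P' β β' : ℝ) (n : ℕ) :
    Lv D P β n * Lv D' P' β' n = Lv (D + D') (P * P') (β + β') n := by
  unfold Lv
  rw [add_mul, add_mul, pow_add, mul_pow, exp_add]
  push_cast
  rw [show -(((D : ℝ) + D') * n) / 2 = -(D * n) / 2 + -(D' * n) / 2 by ring, exp_add]
  ring

/-- unions of `k` matchings -/
def UM : ℕ → SimpleGraph V → Prop
  | 0, G => G = ⊥
  | k + 1, G => ∃ G' M, UM k G' ∧ IsM M ∧ G = G' ⊔ M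

open Classical in
/-- the set of unions of `k` matchings -/
noncomputable def eset (V : Type) [Fintype V] [DecidableEq V] (k : ℕ) : Finset (SimpleGraph V) :=
  univ.filter (UM k)

lemma mem_eset {k : ℕ} {G : SimpleGraph V} : G ∈ eset V k ↔ UM k G := by simp [eset]

lemma UM.deg_le : ∀ {k : ℕ} {G : SimpleGraph V}, UM k G → ∀ v, deg G v ≤ k
  | 0, G, h, v => by rw [show G = ⊥ from h, deg_bot]
  | k + 1, G, ⟨G', M, h1, h2, h3⟩, v => by
    rw [h3]
    exact (deg_sup_le G' M v).trans (add_le_add (UM.deg_le h1 v) (h2 v))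

omit [DecidableEq V] in
lemma UM.col : ∀ {k : ℕ} {G : SimpleGraph V}, UM k G →
    ∃ c : Sym2 V → ℕ, (∀ e ∈ G.edgeSet, c e < k) ∧
      ∀ v x y, G.Adj v x → G.Adj v y → c s(v, x) = c s(v, y) → x = y
  | 0, G, h => by
    rw [show G = ⊥ from h]
    exact ⟨fun _ => 0, by simp, by simp⟩
  | k + 1, G, ⟨G', M, h1, h2, h3⟩ => by
    classical
    obtain ⟨c, hc1, hc2⟩ := UM.col h1
    refine ⟨fun e => if e ∈ G'.edgeSet then c e else k, fun e _ => ?_, fun v x y hx hy h => ?_⟩
    · by_cases he : e ∈ G'.edgeSet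
      · simp only [he, if_true]; exact (hc1 e he).trans (Nat.lt_succ_self k)
      · simp only [he, if_false]; exact Nat.lt_succ_self k
    · rw [h3] at hx hy
      simp only [SimpleGraph.mem_edgeSet] at h
      by_cases h4 : G'.Adj v x <;> by_cases h5 : G'.Adj v y
      · simp only [h4, h5, if_true] at h; exact hc2 v x y h4 h5 h
      · simp only [h4, h5, if_true, if_false] at h
        have := hc1 s(v, x) h4; omega
      · simp only [h4, h5, if_true, if_false] at h
        have := hc1 s(v, y) h5; omega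
      · exact deg_le_one.mp (h2 v) x y (hx.resolve_left h4) (hy.resolve_left h5)

omit [DecidableEq V] in
lemma UM.colorable {k : ℕ} {G : SimpleGraph V} (h : UM k G) : G.lineGraph.Colorable k := by
  obtain ⟨c, hc1, hc2⟩ := h.col
  refine ⟨SimpleGraph.Coloring.mk (fun e => ⟨c e.1, hc1 e.1 e.2⟩) ?_⟩
  rintro ⟨e, he⟩ ⟨f, hf⟩ hadj heq
  rw [SimpleGraph.lineGraph_adj_iff_exists] at hadj
  obtain ⟨hne, v, hv1, hv2⟩ := hadj
  obtain ⟨x, rfl⟩ := Sym2.mem_iff_exists.mp hv1
  obtain ⟨y, rfl⟩ := Sym2.mem_iff_exists.mp hv2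
  have := hc2 v x y he hf (by simpa using heq)
  subst this
  exact hne rfl

lemma deg_split {A B C : SimpleGraph V} (h : A ≤ B ⊔ C) (hd : Disjoint B C) (v : V) :
    deg A v = deg (A ⊓ B) v + deg (A ⊓ C) v := by
  rw [← deg_sup (hd.mono inf_le_right inf_le_right), ← inf_sup_left, inf_eq_left.mpr h]

theorem first_moment {ν : ℝ} (hν : 0 < ν) (D : ℕ) :
    ∃ C : ℝ, 0 < C ∧ ∃ N : ℕ, ∀ n ≥ N, ∀ {α : Type} (S : Finset α) (H : α → SimpleGraph (Fin n))
      (w : α → ℝ), (∀ a ∈ S, ∀ v, deg (H a) v ≤ D) → (∀ a ∈ S, 0 ≤ w a) →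
      (∑ a ∈ S, w a) * Lv 1 1 ν n ≤
        C * ∑ x ∈ S.sigma (fun a => mset (H a)), w x.1 * wt ν x.2 := by
  obtain ⟨C, hC, N, hN⟩ := avoid_lower hν D
  refine ⟨C, hC, N, fun n hn α S H w hH hw => ?_⟩
  rw [sum_sigma, sum_mul, mul_sum]
  apply sum_le_sum
  intro a ha
  simp only
  rw [← mul_sum, mul_left_comm]
  exact mul_le_mul_of_nonneg_left (hN n hn (H a) (hH a ha)) (hw a ha)

/-- leading constant for degree `k` -/
noncomputable def PD (k : ℕ) : ℝ := √(k : ℝ) ^ k / k.factorial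

lemma PD_pos {k : ℕ} (hk : 1 ≤ k) : 0 < PD k := by
  have : (0 : ℝ) < k := by exact_mod_cast hk
  unfold PD; positivity

open Classical in
/-- graphs of maximum degree at most `k` -/
noncomputable def bset (V : Type) [Fintype V] [DecidableEq V] (k : ℕ) : Finset (SimpleGraph V) :=
  univ.filter (fun G => ∀ v, deg G v ≤ k)

lemma mem_bset {k : ℕ} {G : SimpleGraph V} : G ∈ bset V k ↔ ∀ v, deg G v ≤ k := by
  simp only [bset, mem_filter, mem_univ, true_and]

theorem bset_upper (k : ℕ) :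
    ∃ C : ℝ, 0 < C ∧ ∀ n : ℕ, 1 ≤ n →
      ((bset (Fin n) (k + 1)).card : ℝ) ≤ C * Lv (k + 1) (PD (k + 1)) √((k + 1 : ℕ) : ℝ) n := by
  classical
  set T : Finset (Unit → ℕ) := (range (k + 2)).image (fun j _ => j) with hT
  have hmem : ∀ d : Unit → ℕ, d ∈ T ↔ d () ≤ k + 1 := by
    intro d
    simp only [hT, mem_image, mem_range]
    constructor
    · rintro ⟨j, hj, rfl⟩; simp only; omega
    · intro h; exact ⟨d (), by omega, rfl⟩
  have hk : (0 : ℝ) < ((k + 1 : ℕ) : ℝ) := by positivity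
  obtain ⟨s, hs⟩ : ∃ s, s = √((k + 1 : ℕ) : ℝ) := ⟨_, rfl⟩
  have hs0 : 0 < s := by rw [hs]; exact sqrt_pos.mpr hk
  have hss : s ^ 2 = ((k + 1 : ℕ) : ℝ) := by rw [hs]; exact sq_sqrt hk.le
  obtain ⟨C, hC, h⟩ := laplace T (fun _ => 1) (fun _ => zero_le_one) (k + 1)
    (fun d hd => by simpa using (hmem d).mp hd) (fun _ => s) (fun _ => hs0.le)
    (by simpa using hss) (PD (k + 1)) s (1 / 8) (PD_pos (by omega)) (by norm_num) le_rfl
    (by
      refine (fT_le_tbl _ (fun _ => zero_le_one) (fun _ : Unit => fun _ : Unit => k) ?_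
        (fun _ => hs0.le)).trans (le_of_eq ?_)
      · intro d hd
        refine ⟨(), ?_⟩
        have := (mem_filter.mp hd).2
        funext l
        simp only [univ_unique, sum_singleton] at this
        exact (Nat.succ_injective this).symm
      · simp only [univ_unique, sum_singleton, mono, prod_singleton, one_mul, PD, ← hs,
          Nat.factorial_succ]
        rw [Nat.cast_mul, ← hss]
        field_simp
        ring)
    (by
      intro y hy
      refine (fT_le_tbl _ (fun _ => zero_le_one) (fun _ : Unit => fun _ : Unit => k + 1) ?_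
        hy).trans ?_
      · intro d hd
        refine ⟨(), ?_⟩
        have := (mem_filter.mp hd).2
        funext l
        simp only [univ_unique, sum_singleton] at this
        exact this.symm
      · simp only [univ_unique, sum_singleton, mono, prod_singleton, one_mul, PD]
        rw [div_mul_eq_mul_div]
        apply div_le_div_of_nonneg_right _ (by positivity)
        rw [hs]
        exact ineq_one (k + 1) (by omega) _ (hy _))
  refine ⟨C, hC, fun n hn => ?_⟩
  rw [← hs]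
  refine le_trans ?_ (h n hn)
  rw [card_eq_sum_ones]
  push_cast
  apply le_cnt _ (fun G _ => G) _ T _ (fun _ => zero_le_one)
  · intro G hG v
    rw [hmem]
    exact mem_bset.mp hG v
  · intro G _; simp
  · intro G _ H _ h
    exact congrFun h ()

end Pool.Agent.MP_c4b7b1_co
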